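import Pool.Agent.helper52.FM.Defs

set_option autoImplicit false

/-!
# Bilinear maps between spaces with seminorms
-/

namespace Pool.Agent.helper52.FM

open Filter Topology

universe u v w

theorem bilin_continuous {A : Type v} [AddCommGroup A] [Module ℂ A] [TopologicalSpace A]
    {X : Type u} [AddCommGroup X] [Module ℂ X] [TopologicalSpace X]
    {Y : Type w} [AddCommGroup Y] [Module ℂ Y] [TopologicalSpace Y]
    {q : SeminormFamily ℂ A ℕ} (hq : WithSeminorms q) {p : SeminormFamily ℂ X ℕ}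
    (hp : WithSeminorms p) {r : SeminormFamily ℂ Y ℕ} (hr : WithSeminorms r)
    (B : A →ₗ[ℂ] X →ₗ[ℂ] Y)
    (h : ∀ n, ∃ m k, ∃ C : ℝ, 0 ≤ C ∧ ∀ a x, r n (B a x) ≤ C * (q m a * p k x)) :
    Continuous fun z : A × X => B z.1 z.2 := by
  have : IsTopologicalAddGroup A := hq.topologicalAddGroup
  have : IsTopologicalAddGroup X := hp.topologicalAddGroup
  rw [continuous_iff_continuousAt]
  rintro ⟨a0, x0⟩
  rw [ContinuousAt, hr.tendsto_nhds]
  intro n ε hε
  obtain ⟨m, k, C, hC, hb⟩ := h n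
  have hqc : Continuous (q m) := hq.continuous_seminorm m
  have hpc : Continuous (p k) := hp.continuous_seminorm k
  have ht : Tendsto (fun z : A × X => C * (q m (z.1 - a0) * p k (z.2 - x0)) +
      C * (q m (z.1 - a0) * p k x0) + C * (q m a0 * p k (z.2 - x0))) (𝓝 (a0, x0)) (𝓝 0) := by
    have hc : Continuous (fun z : A × X => C * (q m (z.1 - a0) * p k (z.2 - x0)) +
      C * (q m (z.1 - a0) * p k x0) + C * (q m a0 * p k (z.2 - x0))) := by
      have h1 : Continuous fun z : A × X => q m (z.1 - a0) := hqc.comp (continuous_fst.sub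
        continuous_const)
      have h2 : Continuous fun z : A × X => p k (z.2 - x0) := hpc.comp (continuous_snd.sub
        continuous_const)
      exact ((continuous_const.mul (h1.mul h2)).add (continuous_const.mul
        (h1.mul continuous_const))).add (continuous_const.mul (continuous_const.mul h2))
    have := hc.tendsto (a0, x0)
    simpa using this
  filter_upwards [ht.eventually (gt_mem_nhds hε)] with z hz
  refine lt_of_le_of_lt ?_ hz
  have e1 : B z.1 z.2 - B a0 x0 = B (z.1 - a0) (z.2 - x0) + B (z.1 - a0) x0 + B a0 (z.2 - x0) := by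
    simp only [map_sub, LinearMap.sub_apply]
    abel
  rw [e1]
  exact (map_add_le_add (r n) _ _).trans (add_le_add ((map_add_le_add (r n) _ _).trans
    (add_le_add (hb _ _) (hb _ _))) (hb _ _))

theorem ball_sub {X : Type u} [AddCommGroup X] [Module ℂ X] [TopologicalSpace X]
    {p : SeminormFamily ℂ X ℕ} (hp : WithSeminorms p) (hm : Monotone p) {V : Set X}
    (hV : V ∈ 𝓝 (0 : X)) : ∃ k, ∃ δ > 0, ∀ x, p k x < δ → x ∈ V := by
  obtain ⟨s, δ, hδ, h⟩ := (hp.mem_nhds_iff 0 V).1 hV
  refine ⟨s.sup id, δ, hδ, fun x hx => h ?_⟩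
  rw [Seminorm.mem_ball_zero]
  refine lt_of_le_of_lt ?_ hx
  have : s.sup p ≤ p (s.sup id) := Finset.sup_le fun i hi => hm (Finset.le_sup (f := id) hi)
  exact this x

theorem bilin_bound {A : Type v} [AddCommGroup A] [Module ℂ A] [TopologicalSpace A]
    {X : Type u} [AddCommGroup X] [Module ℂ X] [TopologicalSpace X]
    {Y : Type w} [AddCommGroup Y] [Module ℂ Y] [TopologicalSpace Y]
    {q : SeminormFamily ℂ A ℕ} (hq : WithSeminorms q) (hqm : Monotone q)
    {p : SeminormFamily ℂ X ℕ} (hp : WithSeminorms p) (hpm : Monotone p)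
    (B : A →ₗ[ℂ] X →ₗ[ℂ] Y) (hB : Continuous fun z : A × X => B z.1 z.2)
    (r : Seminorm ℂ Y) (hr : Continuous r) :
    ∃ m k, ∃ C : ℝ, 0 ≤ C ∧ ∀ a x, r (B a x) ≤ C * (q m a * p k x) := by
  have h0 : {z : A × X | r (B z.1 z.2) < 1} ∈ 𝓝 ((0 : A), (0 : X)) := by
    have h1 : Continuous fun z : A × X => r (B z.1 z.2) := hr.comp hB
    have h2 : (fun z : A × X => r (B z.1 z.2)) ⁻¹' Set.Iio 1 ∈ 𝓝 ((0 : A), (0 : X)) := by
      apply h1.continuousAt.preimage_mem_nhds
      apply Iio_mem_nhds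
      simp
    exact h2
  rw [nhds_prod_eq, Filter.mem_prod_iff] at h0
  obtain ⟨U, hU, V, hV, hUV⟩ := h0
  obtain ⟨m, δ1, hδ1, h1⟩ := ball_sub hq hqm hU
  obtain ⟨k, δ2, hδ2, h2⟩ := ball_sub hp hpm hV
  refine ⟨m, k, 4 / (δ1 * δ2), by positivity, fun a x => ?_⟩
  have key : ∀ η > 0, r (B a x) ≤ 4 / (δ1 * δ2) * ((q m a + η) * (p k x + η)) := by
    intro η hη
    have hqa : 0 ≤ q m a := apply_nonneg _ _
    have hpx : 0 ≤ p k x := apply_nonneg _ _
    set α : ℝ := δ1 / 2 / (q m a + η) with hα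
    set β : ℝ := δ2 / 2 / (p k x + η) with hβ
    have hα0 : 0 < α := by positivity
    have hβ0 : 0 < β := by positivity
    have ha : ((α : ℂ) • a) ∈ U := by
      apply h1
      rw [map_smul_eq_mul, Complex.norm_real, Real.norm_of_nonneg hα0.le, hα,
        div_mul_eq_mul_div, div_lt_iff₀ (by positivity)]
      nlinarith
    have hx : ((β : ℂ) • x) ∈ V := by
      apply h2
      rw [map_smul_eq_mul, Complex.norm_real, Real.norm_of_nonneg hβ0.le, hβ,
        div_mul_eq_mul_div, div_lt_iff₀ (by positivity)]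
      nlinarith
    have h3 : r (B ((α : ℂ) • a) ((β : ℂ) • x)) < 1 := hUV (Set.mk_mem_prod ha hx)
    have e3 : B ((α : ℂ) • a) ((β : ℂ) • x) = (β : ℂ) • ((α : ℂ) • B a x) := by
      rw [map_smul (B _), map_smul B, LinearMap.smul_apply]
    rw [e3, map_smul_eq_mul, map_smul_eq_mul, Complex.norm_real, Complex.norm_real, Real.norm_of_nonneg hα0.le,
      Real.norm_of_nonneg hβ0.le] at h3
    have h4 : r (B a x) ≤ 1 / (α * β) := by
      rw [le_div_iff₀ (by positivity)]
      nlinarith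
    refine h4.trans (le_of_eq ?_)
    rw [hα, hβ]
    field_simp
    ring
  have ht : Tendsto (fun η : ℝ => 4 / (δ1 * δ2) * ((q m a + η) * (p k x + η))) (𝓝[>] 0)
      (𝓝 (4 / (δ1 * δ2) * (q m a * p k x))) := by
    have hc : Continuous (fun η : ℝ => 4 / (δ1 * δ2) * ((q m a + η) * (p k x + η))) := by
      fun_prop
    have := (hc.tendsto 0).mono_left (nhdsWithin_le_nhds (s := Set.Ioi 0))
    simpa using this
  exact ge_of_tendsto ht (eventually_nhdsWithin_of_forall fun η hη => key η hη)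

/-- a closed subspace of a Fréchet space is a Fréchet space -/
theorem frechet_closed {X : Type u} [AddCommGroup X] [Module ℂ X] [TopologicalSpace X]
    [hX : Frechet X] (V : Submodule ℂ X) (hV : IsClosed (V : Set X)) : Frechet V := by
  obtain ⟨p, hm, hp, hs, hc⟩ := hX.out
  refine ⟨fun k => (p k).comp V.subtype, fun i j hij x => hm hij x.1, ?_, ?_, ?_⟩
  · have := hp
    exact Topology.IsInducing.subtypeVal.withSeminorms (f := V.subtype) hp
  · intro x hx
    exact Subtype.ext (hs x.1 hx)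
  · intro s hcs
    obtain ⟨x, hx⟩ := hc (fun i => (s i : X)) (fun k ε hε => by
      obtain ⟨N, hN⟩ := hcs k ε hε
      exact ⟨N, fun i hi j hj => hN i hi j hj⟩)
    have hxV : x ∈ V := hV.mem_of_tendsto hx (Eventually.of_forall fun i => (s i).2)
    refine ⟨⟨x, hxV⟩, ?_⟩
    rw [tendsto_subtype_rng]
    exact hx

end Pool.Agent.helper52.FM
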