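import Pool.Agent.helper52.FM.Bil

set_option autoImplicit false

/-!
# Kernels of characters
-/

namespace Pool.Agent.helper52.FM

open Filter Topology

universe u v

set_option linter.unusedSectionVars false

/-- The kernel of a multiplicative linear functional, a non-unital algebra. -/
def kerAlg {A : Type v} [Ring A] [Module ℂ A] (χ : A →ₗ[ℂ] ℂ)
    (hm : ∀ a b, χ (a * b) = χ a * χ b) : NonUnitalSubalgebra ℂ A where
  carrier := {a | χ a = 0}
  add_mem' := fun {a b} ha hb => by
    have ha' : χ a = 0 := ha
    have hb' : χ b = 0 := hb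
    change χ (a + b) = 0
    rw [map_add, ha', hb', add_zero]
  zero_mem' := map_zero χ
  mul_mem' := fun {a b} ha _ => by
    have ha' : χ a = 0 := ha
    change χ (a * b) = 0
    rw [hm, ha', zero_mul]
  smul_mem' := fun z a ha => by
    have ha' : χ a = 0 := ha
    change χ (z • a) = 0
    rw [map_smul, ha', smul_zero]

section

variable {A : Type v} [Ring A] [Module ℂ A] [TopologicalSpace A] {χ : A →ₗ[ℂ] ℂ}
  {hm : ∀ a b, χ (a * b) = χ a * χ b}

theorem mem_kerAlg {a : A} : a ∈ kerAlg χ hm ↔ χ a = 0 := Iff.rfl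

theorem isFrechetAlgebra_ker (hA : IsFrechetAlgebra A) (hc : Continuous χ) :
    IsFrechetAlgebra (kerAlg χ hm) where
  frechet := by
    have := hA.frechet
    exact frechet_closed (kerAlg χ hm).toSubmodule (isClosed_singleton.preimage hc)
  smul_mul := fun c a b => Subtype.ext (hA.smul_mul c a b)
  mul_smul := fun c a b => Subtype.ext (hA.mul_smul c a b)
  cont := by
    refine Continuous.subtype_mk ?_ _
    exact hA.cont.comp ((continuous_subtype_val.comp continuous_fst).prodMk
      (continuous_subtype_val.comp continuous_snd))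

theorem mem_proj (h1 : χ 1 = 1) (a : A) : a - χ a • (1 : A) ∈ kerAlg χ hm := by
  rw [mem_kerAlg, map_sub, map_smul, h1, smul_eq_mul, mul_one, sub_self]

/-- the projection onto the kernel -/
def projK (hm : ∀ a b, χ (a * b) = χ a * χ b) (h1 : χ 1 = 1) : A →ₗ[ℂ] kerAlg χ hm where
  toFun a := ⟨a - χ a • (1 : A), mem_proj h1 a⟩
  map_add' a b := Subtype.ext (by
    change a + b - χ (a + b) • (1 : A) = (a - χ a • (1 : A)) + (b - χ b • (1 : A))
    rw [map_add, add_smul]
    abel)
  map_smul' z a := Subtype.ext (by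
    change z • a - χ (z • a) • (1 : A) = z • (a - χ a • (1 : A))
    rw [map_smul, smul_sub, smul_smul, smul_eq_mul])

theorem projK_mul (hA : IsFrechetAlgebra A) (h1 : χ 1 = 1) (a b : A) :
    projK hm h1 (a * b) = projK hm h1 a * projK hm h1 b + χ b • projK hm h1 a +
      χ a • projK hm h1 b := by
  refine Subtype.ext ?_
  change a * b - χ (a * b) • (1 : A) = (a - χ a • (1 : A)) * (b - χ b • (1 : A)) +
    χ b • (a - χ a • (1 : A)) + χ a • (b - χ b • (1 : A))
  rw [hm, sub_mul, mul_sub, mul_sub, hA.mul_smul, hA.smul_mul, hA.smul_mul, hA.mul_smul, mul_one,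
    one_mul, one_mul, smul_sub, smul_sub, smul_smul, smul_smul, mul_comm (χ b) (χ a)]
  abel

theorem projK_cont (hA : IsFrechetAlgebra A) (hc : Continuous χ) (h1 : χ 1 = 1) :
    Continuous (projK hm h1) := by
  obtain ⟨q, -, hq, -⟩ := hA.frechet.out
  have : IsTopologicalAddGroup A := hq.topologicalAddGroup
  have : ContinuousSMul ℂ A := hq.continuousSMul
  exact Continuous.subtype_mk (continuous_id.sub (hc.smul continuous_const)) _

theorem projK_ker (h1 : χ 1 = 1) (i : kerAlg χ hm) : projK hm h1 (i : A) = i := by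
  refine Subtype.ext ?_
  change (i : A) - χ (i : A) • (1 : A) = i
  rw [mem_kerAlg.1 i.2, zero_smul, sub_zero]

/-- a module over the kernel is a unital module over the algebra -/
def extMod (hA : IsFrechetAlgebra A) (hc : Continuous χ) (h1 : χ 1 = 1)
    {X : Type u} [AddCommGroup X] [Module ℂ X] [TopologicalSpace X] [hX : Frechet X]
    (M : FModule (kerAlg χ hm) X) : FModule A X where
  act := M.act ∘ₗ projK hm h1 + (LinearMap.lsmul ℂ X) ∘ₗ χ
  act_mul a b x := by
    change M.act (projK hm h1 (a * b)) x + χ (a * b) • x =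
      M.act (projK hm h1 a) (M.act (projK hm h1 b) x + χ b • x) +
        χ a • (M.act (projK hm h1 b) x + χ b • x)
    rw [projK_mul hA h1, hm]
    simp only [map_add, LinearMap.add_apply, map_smul, LinearMap.smul_apply, M.act_mul, smul_add,
      smul_smul]
    abel
  cont := by
    obtain ⟨p, -, hp, -⟩ := hX.out
    have : IsTopologicalAddGroup X := hp.topologicalAddGroup
    have : ContinuousSMul ℂ X := hp.continuousSMul
    change Continuous fun q : A × X => M.act (projK hm h1 q.1) q.2 + χ q.1 • q.2
    exact (M.cont.comp (((projK_cont hA hc h1).comp continuous_fst).prodMk continuous_snd)).add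
      ((hc.comp continuous_fst).smul continuous_snd)

variable {X : Type u} [AddCommGroup X] [Module ℂ X] [TopologicalSpace X] [hX : Frechet X]

theorem extMod_act (hA : IsFrechetAlgebra A) (hc : Continuous χ) (h1 : χ 1 = 1)
    (M : FModule (kerAlg χ hm) X) (a : A) (x : X) :
    (extMod hA hc h1 M).act a x = M.act (projK hm h1 a) x + χ a • x := rfl

theorem extMod_unital (hA : IsFrechetAlgebra A) (hc : Continuous χ) (h1 : χ 1 = 1)
    (M : FModule (kerAlg χ hm) X) : (extMod hA hc h1 M).Unital := by
  intro x
  have e : projK hm h1 (1 : A) = 0 := by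
    refine Subtype.ext ?_
    change (1 : A) - χ 1 • (1 : A) = 0
    rw [h1, one_smul, sub_self]
  rw [extMod_act, e, map_zero, LinearMap.zero_apply, h1, one_smul, zero_add]

/-- restriction of a module to the kernel -/
def resMod (χ : A →ₗ[ℂ] ℂ) (hm : ∀ a b, χ (a * b) = χ a * χ b) (N : FModule A X) :
    FModule (kerAlg χ hm) X where
  act := N.act ∘ₗ (kerAlg χ hm).toSubmodule.subtype
  act_mul a b x := N.act_mul a.1 b.1 x
  cont := N.cont.comp ((continuous_subtype_val.comp continuous_fst).prodMk continuous_snd)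

theorem extMod_injective (hA : IsFrechetAlgebra A) (hc : Continuous χ) (h1 : χ 1 = 1)
    (M : FModule (kerAlg χ hm) X) (hI : M.Injective) : (extMod hA hc h1 M).InjectiveUnital := by
  intro Y _ _ _ _ N φ hU hφ hρ
  obtain ⟨ψ, hψ, hψ'⟩ := hI Y (resMod χ hm N) φ (fun i x => by
    have h := hφ (i : A) x
    rw [extMod_act, projK_ker, mem_kerAlg.1 i.2, zero_smul, add_zero] at h
    exact h) hρ
  refine ⟨ψ, fun a y => ?_, hψ'⟩
  have e : N.act a y = N.act (projK hm h1 a : A) y + χ a • y := by
    have e1 : a = (projK hm h1 a : A) + χ a • (1 : A) := by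
      change a = a - χ a • (1 : A) + χ a • (1 : A)
      rw [sub_add_cancel]
    conv_lhs => rw [e1]
    rw [map_add, LinearMap.add_apply, map_smul, LinearMap.smul_apply, hU y]
  rw [e, map_add, map_smul, extMod_act, ← hψ (projK hm h1 a) y]
  rfl

end

end Pool.Agent.helper52.FM
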