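import Pool.Agent.helper52.FM.L1b

set_option autoImplicit false

/-!
# No injective modules
-/

namespace Pool.Agent.helper52.FM

open Filter Topology

universe u

variable {S : Type} [Monoid S] {W : Weights S}

/-! ### the coinduced module -/

set_option linter.unusedSectionVars false

section coind

variable {X : Type u} [AddCommGroup X] [Module ℂ X] [TopologicalSpace X]
  (p : ℕ → Seminorm ℂ X) (β : ℕ → ℕ)

/-- linear maps `φ : A → X` with `p_n(φ a) ≤ M ‖a‖_{β n}` for all `n` -/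
def Co (W : Weights S) : Submodule ℂ (L1 W →ₗ[ℂ] X) where
  carrier := {φ | ∀ n, ∃ M : ℝ, 0 ≤ M ∧ ∀ a, p n (φ a) ≤ M * L1.N W (β n) a}
  add_mem' := by
    intro φ χ hφ hχ n
    obtain ⟨M, hM, h⟩ := hφ n
    obtain ⟨M', hM', h'⟩ := hχ n
    refine ⟨M + M', by positivity, fun a => ?_⟩
    rw [LinearMap.add_apply, add_mul]
    exact (map_add_le_add (p n) _ _).trans (add_le_add (h a) (h' a))
  zero_mem' := by
    intro n
    exact ⟨0, le_rfl, fun a => by simp⟩
  smul_mem' := by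
    intro z φ hφ n
    obtain ⟨M, hM, h⟩ := hφ n
    refine ⟨‖z‖ * M, by positivity, fun a => ?_⟩
    rw [LinearMap.smul_apply, map_smul_eq_mul, mul_assoc]
    exact mul_le_mul_of_nonneg_left (h a) (norm_nonneg _)

/-- the type of the coinduced module -/
def CoT (W : Weights S) : Type u := Co p β W

noncomputable instance : AddCommGroup (CoT p β W) := inferInstanceAs (AddCommGroup (Co p β W))
noncomputable instance : Module ℂ (CoT p β W) := inferInstanceAs (Module ℂ (Co p β W))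

/-- the map -/
def CoT.f {p : ℕ → Seminorm ℂ X} {β : ℕ → ℕ} (φ : CoT p β W) : L1 W →ₗ[ℂ] X := φ.1

theorem CoT.ext {p : ℕ → Seminorm ℂ X} {β : ℕ → ℕ} {φ χ : CoT p β W} (h : ∀ a, φ.f a = χ.f a) :
    φ = χ := Subtype.ext (LinearMap.ext h)

/-- the least constant -/
noncomputable def CoT.P0 (n : ℕ) (φ : CoT p β W) : ℝ :=
  sInf {M : ℝ | 0 ≤ M ∧ ∀ a, p n (φ.f a) ≤ M * L1.N W (β n) a}

variable {p β}

theorem CoT.P0_bdd (n : ℕ) (φ : CoT p β W) :
    BddBelow {M : ℝ | 0 ≤ M ∧ ∀ a, p n (φ.f a) ≤ M * L1.N W (β n) a} :=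
  ⟨0, fun _ hM => hM.1⟩

theorem CoT.P0_nonneg (n : ℕ) (φ : CoT p β W) : 0 ≤ CoT.P0 p β n φ :=
  Real.sInf_nonneg fun _ hM => hM.1

theorem CoT.P0_le (n : ℕ) (φ : CoT p β W) {M : ℝ} (hM : 0 ≤ M)
    (h : ∀ a, p n (φ.f a) ≤ M * L1.N W (β n) a) : CoT.P0 p β n φ ≤ M :=
  csInf_le (CoT.P0_bdd n φ) ⟨hM, h⟩

theorem CoT.le_P0 (n : ℕ) (φ : CoT p β W) (a : L1 W) :
    p n (φ.f a) ≤ CoT.P0 p β n φ * L1.N W (β n) a := by
  have hne : {M : ℝ | 0 ≤ M ∧ ∀ a, p n (φ.f a) ≤ M * L1.N W (β n) a}.Nonempty := φ.2 n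
  rcases (apply_nonneg (L1.N W (β n)) a).eq_or_lt with h0 | h0
  · obtain ⟨M, hM, h⟩ := hne
    have := h a
    rw [← h0, mul_zero] at this ⊢
    exact this
  · rw [← div_le_iff₀ h0]
    refine le_csInf hne ?_
    rintro M ⟨hM, h⟩
    rw [div_le_iff₀ h0]
    exact h a

variable (p β)

/-- the seminorms of the coinduced module -/
noncomputable def CoT.P (W : Weights S) (n : ℕ) : Seminorm ℂ (CoT p β W) :=
  Seminorm.of (CoT.P0 p β n)
    (fun φ χ => by
      refine CoT.P0_le n _ (add_nonneg (CoT.P0_nonneg n φ) (CoT.P0_nonneg n χ)) fun a => ?_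
      rw [add_mul]
      exact (map_add_le_add (p n) (φ.f a) (χ.f a)).trans
        (add_le_add (CoT.le_P0 n φ a) (CoT.le_P0 n χ a)))
    (fun z φ => by
      have h1 : ∀ (z : ℂ) (φ : CoT p β W), CoT.P0 p β n (z • φ) ≤ ‖z‖ * CoT.P0 p β n φ := by
        intro z φ
        refine CoT.P0_le n _ (mul_nonneg (norm_nonneg _) (CoT.P0_nonneg n φ)) fun a => ?_
        change p n (z • φ.f a) ≤ _
        rw [map_smul_eq_mul, mul_assoc]
        exact mul_le_mul_of_nonneg_left (CoT.le_P0 n φ a) (norm_nonneg _)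
      refine le_antisymm (h1 z φ) ?_
      by_cases hz : z = 0
      · subst hz
        rw [norm_zero, zero_mul]
        exact CoT.P0_nonneg n _
      · have h2 := h1 z⁻¹ (z • φ)
        rw [smul_smul, inv_mul_cancel₀ hz, one_smul, norm_inv] at h2
        have h3 : 0 < ‖z‖ := norm_pos_iff.2 hz
        rw [inv_mul_eq_div, le_div_iff₀ h3] at h2
        linarith)

theorem CoT.P_le (n : ℕ) (φ : CoT p β W) {M : ℝ} (hM : 0 ≤ M)
    (h : ∀ a, p n (φ.f a) ≤ M * L1.N W (β n) a) : CoT.P p β W n φ ≤ M :=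
  CoT.P0_le n φ hM h

theorem CoT.le_P (n : ℕ) (φ : CoT p β W) (a : L1 W) :
    p n (φ.f a) ≤ CoT.P p β W n φ * L1.N W (β n) a := CoT.le_P0 n φ a

/-- the increasing sequence of seminorms of the coinduced module -/
noncomputable def CoT.Q (W : Weights S) (n : ℕ) : Seminorm ℂ (CoT p β W) :=
  (Finset.Iic n).sup (CoT.P p β W)

theorem CoT.Q_mono (W : Weights S) : Monotone (CoT.Q p β W) := fun _ _ h =>
  Finset.sup_mono (Finset.Iic_subset_Iic.2 h)

theorem CoT.P_le_Q {i n : ℕ} (h : i ≤ n) (φ : CoT p β W) : CoT.P p β W i φ ≤ CoT.Q p β W n φ :=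
  Seminorm.le_finset_sup_apply (Finset.mem_Iic.2 h)

theorem CoT.Q_le {n : ℕ} (φ : CoT p β W) {M : ℝ} (hM : 0 ≤ M)
    (h : ∀ i ≤ n, CoT.P p β W i φ ≤ M) : CoT.Q p β W n φ ≤ M :=
  Seminorm.finset_sup_apply_le hM fun i hi => h i (Finset.mem_Iic.1 hi)

noncomputable instance : TopologicalSpace (CoT p β W) :=
  (show SeminormFamily ℂ (CoT p β W) ℕ from CoT.Q p β W).moduleFilterBasis.topology

theorem CoT.withSeminorms (W : Weights S) :
    WithSeminorms (show SeminormFamily ℂ (CoT p β W) ℕ from CoT.Q p β W) := ⟨rfl⟩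

variable {p β}

theorem CoT.complete (hp : WithSeminorms (p : SeminormFamily ℂ X ℕ))
    (hs : ∀ x, (∀ k, p k x = 0) → x = 0)
    (hc : ∀ s : ℕ → X, (∀ k, ∀ ε > 0, ∃ N, ∀ i ≥ N, ∀ j ≥ N, p k (s i - s j) < ε) →
      ∃ x, Tendsto s atTop (𝓝 x)) (u : ℕ → CoT p β W)
    (hu : ∀ k, ∀ ε > 0, ∃ N, ∀ i ≥ N, ∀ j ≥ N, CoT.Q p β W k (u i - u j) < ε) :
    ∃ x, Tendsto u atTop (𝓝 x) := by
  have hT1 : T1Space X := by
    refine hp.T1_of_separating fun x hx => ?_
    by_contra hcon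
    push Not at hcon
    exact hx (hs x hcon)
  have : IsTopologicalAddGroup X := hp.topologicalAddGroup
  have hT2 : T2Space X := inferInstance
  have hsm : ContinuousSMul ℂ X := hp.continuousSMul
  have hlim : ∀ a, ∃ x, Tendsto (fun i => (u i).f a) atTop (𝓝 x) := by
    intro a
    apply hc
    intro k ε hε
    have hN : 0 ≤ L1.N W (β k) a := apply_nonneg _ _
    obtain ⟨N, hN'⟩ := hu k (ε / (L1.N W (β k) a + 1)) (by positivity)
    refine ⟨N, fun i hi j hj => ?_⟩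
    have h1 : p k ((u i).f a - (u j).f a) ≤ CoT.P p β W k (u i - u j) * L1.N W (β k) a :=
      CoT.le_P p β k (u i - u j) a
    have h2 := (CoT.P_le_Q p β (le_refl k) (u i - u j)).trans_lt (hN' i hi j hj)
    have h3 : 0 ≤ CoT.P p β W k (u i - u j) := apply_nonneg _ _
    calc p k ((u i).f a - (u j).f a) ≤ CoT.P p β W k (u i - u j) * L1.N W (β k) a := h1
      _ ≤ ε / (L1.N W (β k) a + 1) * L1.N W (β k) a := mul_le_mul_of_nonneg_right h2.le hN
      _ < ε / (L1.N W (β k) a + 1) * (L1.N W (β k) a + 1) := by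
          apply mul_lt_mul_of_pos_left (by linarith) (by positivity)
      _ = ε := by field_simp
  choose g hg using hlim
  let gl : L1 W →ₗ[ℂ] X :=
    { toFun := g
      map_add' := fun a b => tendsto_nhds_unique (hg (a + b))
        (((hg a).add (hg b)).congr fun i => (map_add (u i).f a b).symm)
      map_smul' := fun z a => tendsto_nhds_unique (hg (z • a))
        (((hg a).const_smul z).congr fun i => (map_smul (u i).f z a).symm) }
  have key : ∀ k, ∀ ε > 0, ∃ N, ∀ i ≥ N, ∀ a, p k ((u i).f a - g a) ≤ ε * L1.N W (β k) a := by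
    intro k ε hε
    obtain ⟨N, hN⟩ := hu k ε hε
    refine ⟨N, fun i hi a => ?_⟩
    have hpc : Continuous (p k) := hp.continuous_seminorm k
    have ht : Tendsto (fun j => p k ((u i).f a - (u j).f a)) atTop (𝓝 (p k ((u i).f a - g a))) :=
      (hpc.tendsto _).comp (tendsto_const_nhds.sub (hg a))
    refine le_of_tendsto ht ?_
    filter_upwards [eventually_ge_atTop N] with j hj
    have h1 : p k ((u i).f a - (u j).f a) ≤ CoT.P p β W k (u i - u j) * L1.N W (β k) a :=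
      CoT.le_P p β k (u i - u j) a
    have h2 := (CoT.P_le_Q p β (le_refl k) (u i - u j)).trans_lt (hN i hi j hj)
    exact h1.trans (mul_le_mul_of_nonneg_right h2.le (apply_nonneg _ _))
  have hmem : gl ∈ Co p β W := by
    intro k
    obtain ⟨N, hN⟩ := key k 1 one_pos
    obtain ⟨M, hM, hMa⟩ := (u N).2 k
    refine ⟨M + 1, by positivity, fun a => ?_⟩
    have e1 : gl a = (u N).f a - ((u N).f a - g a) := by
      change g a = _
      abel
    rw [e1, add_mul]
    exact (map_sub_le_add (p k) _ _).trans (add_le_add (hMa a) (hN N le_rfl a))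
  refine ⟨⟨gl, hmem⟩, ?_⟩
  rw [(CoT.withSeminorms p β W).tendsto_nhds]
  intro k ε hε
  have h1 : ∀ i, ∃ N, ∀ j ≥ N, ∀ a, p i ((u j).f a - g a) ≤ ε / 2 * L1.N W (β i) a :=
    fun i => key i (ε / 2) (half_pos hε)
  choose N hN using h1
  filter_upwards [eventually_ge_atTop ((Finset.Iic k).sup N)] with j hj
  have h2 : CoT.Q p β W k (u j - ⟨gl, hmem⟩) ≤ ε / 2 := by
    refine CoT.Q_le p β _ (by positivity) fun i hi => ?_
    refine CoT.P_le p β i _ (by positivity) fun a => ?_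
    have hij : N i ≤ j := (Finset.le_sup (Finset.mem_Iic.2 hi)).trans hj
    exact hN i j hij a
  exact lt_of_le_of_lt h2 (half_lt_self hε)

theorem CoT.frechet (hp : WithSeminorms (p : SeminormFamily ℂ X ℕ))
    (hs : ∀ x, (∀ k, p k x = 0) → x = 0)
    (hc : ∀ s : ℕ → X, (∀ k, ∀ ε > 0, ∃ N, ∀ i ≥ N, ∀ j ≥ N, p k (s i - s j) < ε) →
      ∃ x, Tendsto s atTop (𝓝 x)) : Frechet (CoT p β W) := by
  refine ⟨⟨CoT.Q p β W, CoT.Q_mono p β W, CoT.withSeminorms p β W, fun φ hφ => ?_,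
    CoT.complete hp hs hc⟩⟩
  refine CoT.ext fun a => hs _ fun k => ?_
  refine le_antisymm ?_ (apply_nonneg _ _)
  have h1 := CoT.le_P p β k φ a
  have h2 := CoT.P_le_Q p β (le_refl k) φ
  rw [hφ k] at h2
  have h3 : CoT.P p β W k φ = 0 := le_antisymm h2 (apply_nonneg _ _)
  rw [h3, zero_mul] at h1
  exact h1

/-- the action `(b φ)(a) = φ(a b)` -/
noncomputable def CoT.actF (b : L1 W) (φ : CoT p β W) : CoT p β W :=
  ⟨φ.f ∘ₗ (L1.mulL W).flip b, by
    intro n
    obtain ⟨m, C, hC⟩ := W.submul (β n)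
    obtain ⟨M, hM, h⟩ := φ.2 n
    have hC0 : 0 ≤ C := by
      have := hC 1 1
      have h1 := W.pos (β n) (1 * 1)
      have h2 := mul_pos (W.pos (β n) 1) (W.pos m 1)
      by_contra hcon
      push Not at hcon
      nlinarith
    have hb : 0 ≤ L1.N W m b := apply_nonneg _ _
    refine ⟨M * (C * L1.N W m b), by positivity, fun a => ?_⟩
    calc p n (φ.f (a * b)) ≤ M * L1.N W (β n) (a * b) := h _
      _ ≤ M * (C * (L1.N W (β n) a * L1.N W m b)) :=
        mul_le_mul_of_nonneg_left (L1.N_mul hC a b) hM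
      _ = M * (C * L1.N W m b) * L1.N W (β n) a := by ring⟩

theorem CoT.actF_f (b : L1 W) (φ : CoT p β W) (a : L1 W) : (CoT.actF b φ).f a = φ.f (a * b) := rfl

theorem CoT.add_f (φ χ : CoT p β W) (a : L1 W) : (φ + χ).f a = φ.f a + χ.f a := rfl
theorem CoT.sub_f (φ χ : CoT p β W) (a : L1 W) : (φ - χ).f a = φ.f a - χ.f a := rfl
theorem CoT.smul_f (z : ℂ) (φ : CoT p β W) (a : L1 W) : (z • φ).f a = z • φ.f a := rfl

/-- the action as a bilinear map -/
noncomputable def CoT.act : L1 W →ₗ[ℂ] CoT p β W →ₗ[ℂ] CoT p β W :=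
  LinearMap.mk₂ ℂ CoT.actF
    (fun b b' φ => CoT.ext fun a => by
      rw [CoT.add_f, CoT.actF_f, CoT.actF_f, CoT.actF_f, mul_add, map_add])
    (fun z b φ => CoT.ext fun a => by
      rw [CoT.smul_f, CoT.actF_f, CoT.actF_f, L1.mul_smul', map_smul])
    (fun b φ χ => CoT.ext fun a => by
      rw [CoT.add_f, CoT.actF_f, CoT.actF_f, CoT.actF_f, CoT.add_f])
    (fun z b φ => CoT.ext fun a => by
      rw [CoT.smul_f, CoT.actF_f, CoT.actF_f, CoT.smul_f])

theorem CoT.act_f (b : L1 W) (φ : CoT p β W) (a : L1 W) : (CoT.act b φ).f a = φ.f (a * b) := rfl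

theorem CoT.act_cont : Continuous fun z : L1 W × CoT p β W => CoT.act z.1 z.2 := by
  refine bilin_continuous (L1.withSeminorms W) (CoT.withSeminorms p β W)
    (CoT.withSeminorms p β W) CoT.act ?_
  intro n
  choose m C hC using fun i => W.submul (β i)
  have hC0 : ∀ i, 0 ≤ C i := by
    intro i
    have := hC i 1 1
    have h1 := W.pos (β i) (1 * 1)
    have h2 := mul_pos (W.pos (β i) 1) (W.pos (m i) 1)
    by_contra hcon
    push Not at hcon
    nlinarith
  refine ⟨(Finset.Iic n).sup m, n, ∑ i ∈ Finset.Iic n, C i, Finset.sum_nonneg fun i _ => hC0 i,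
    fun b φ => ?_⟩
  have hb : 0 ≤ L1.N W ((Finset.Iic n).sup m) b := apply_nonneg _ _
  have hQ : 0 ≤ CoT.Q p β W n φ := apply_nonneg _ _
  have hS : 0 ≤ ∑ i ∈ Finset.Iic n, C i := Finset.sum_nonneg fun i _ => hC0 i
  refine CoT.Q_le p β _ (by positivity) fun i hi => ?_
  refine CoT.P_le p β i _ (by positivity) fun a => ?_
  have hP : 0 ≤ CoT.P p β W i φ := apply_nonneg _ _
  have hPQ := CoT.P_le_Q p β hi φ
  have hNa : 0 ≤ L1.N W (β i) a := apply_nonneg _ _
  have hNb : L1.N W (m i) b ≤ L1.N W ((Finset.Iic n).sup m) b :=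
    L1.N_mono (Finset.le_sup (Finset.mem_Iic.2 hi)) b
  have hNb0 : 0 ≤ L1.N W (m i) b := apply_nonneg _ _
  have hCS : C i ≤ ∑ i ∈ Finset.Iic n, C i :=
    Finset.single_le_sum (fun i _ => hC0 i) (Finset.mem_Iic.2 hi)
  calc p i ((CoT.act b φ).f a) ≤ CoT.P p β W i φ * L1.N W (β i) (a * b) :=
        CoT.le_P p β i φ (a * b)
    _ ≤ CoT.P p β W i φ * (C i * (L1.N W (β i) a * L1.N W (m i) b)) :=
        mul_le_mul_of_nonneg_left (L1.N_mul (hC i) a b) hP
    _ = C i * (L1.N W (m i) b * CoT.P p β W i φ) * L1.N W (β i) a := by ring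
    _ ≤ (∑ i ∈ Finset.Iic n, C i) * (L1.N W ((Finset.Iic n).sup m) b * CoT.Q p β W n φ) *
        L1.N W (β i) a := by
        apply mul_le_mul_of_nonneg_right _ hNa
        exact mul_le_mul hCS (mul_le_mul hNb hPQ hP hb) (mul_nonneg hNb0 hP) hS

/-- the coinduced module -/
noncomputable def CoT.mod : FModule (L1 W) (CoT p β W) where
  act := CoT.act
  act_mul := fun a b φ => CoT.ext fun c => by
    rw [CoT.act_f, CoT.act_f, CoT.act_f, mul_assoc]
  cont := CoT.act_cont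

theorem CoT.mod_unital : (CoT.mod (p := p) (β := β) (W := W)).Unital := fun φ =>
  CoT.ext fun a => by
    change φ.f (a * 1) = φ.f a
    rw [mul_one]

end coind

end Pool.Agent.helper52.FM
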