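import Mathlib

set_option autoImplicit false

/-!
# Fréchet algebras, Fréchet modules, injective modules
-/

namespace Pool.Agent.helper52.FM

open Filter Topology

universe u v

/-- `X` is a Fréchet space: its topology is the one defined by an increasing sequence of seminorms
which separate the points and for which every Cauchy sequence converges. -/
class Frechet (X : Type u) [AddCommGroup X] [Module ℂ X] [TopologicalSpace X] : Prop where
  out : ∃ p : ℕ → Seminorm ℂ X, Monotone p ∧ WithSeminorms (p : SeminormFamily ℂ X ℕ) ∧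
    (∀ x, (∀ k, p k x = 0) → x = 0) ∧
    ∀ s : ℕ → X, (∀ k, ∀ ε > 0, ∃ N, ∀ i ≥ N, ∀ j ≥ N, p k (s i - s j) < ε) →
      ∃ x, Tendsto s atTop (𝓝 x)

/-- `A` is a Fréchet algebra: a Fréchet space with an associative, bilinear and jointly continuous
multiplication (a unit is not required). -/
structure IsFrechetAlgebra (A : Type v) [NonUnitalRing A] [Module ℂ A] [TopologicalSpace A] :
    Prop where
  frechet : Frechet A
  smul_mul : ∀ (c : ℂ) (a b : A), (c • a) * b = c • (a * b)
  mul_smul : ∀ (c : ℂ) (a b : A), a * (c • b) = c • (a * b)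
  cont : Continuous fun q : A × A => q.1 * q.2

/-- A structure of topological left `A`-module on `X`: a bilinear, associative and jointly
continuous action. -/
structure FModule (A : Type v) [NonUnitalRing A] [Module ℂ A] [TopologicalSpace A]
    (X : Type u) [AddCommGroup X] [Module ℂ X] [TopologicalSpace X] where
  act : A →ₗ[ℂ] X →ₗ[ℂ] X
  act_mul : ∀ a b x, act (a * b) x = act a (act b x)
  cont : Continuous fun q : A × X => act q.1 q.2

/-- The Fréchet `A`-module `X` is injective: every morphism `φ : X → Y` of Fréchet `A`-modules with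
a continuous linear left inverse has a continuous `A`-linear left inverse. -/
def FModule.Injective {A : Type v} [NonUnitalRing A] [Module ℂ A] [TopologicalSpace A]
    {X : Type u} [AddCommGroup X] [Module ℂ X] [TopologicalSpace X] (M : FModule A X) : Prop :=
  ∀ (Y : Type u) [AddCommGroup Y] [Module ℂ Y] [TopologicalSpace Y] [Frechet Y]
    (N : FModule A Y) (φ : X →L[ℂ] Y), (∀ a x, φ (M.act a x) = N.act a (φ x)) →
    (∃ ρ : Y →L[ℂ] X, ∀ x, ρ (φ x) = x) →
    ∃ ψ : Y →L[ℂ] X, (∀ a y, ψ (N.act a y) = M.act a (ψ y)) ∧ ∀ x, ψ (φ x) = x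

/-- The unit of `A` acts as the identity. -/
def FModule.Unital {A : Type v} [Ring A] [Module ℂ A] [TopologicalSpace A]
    {X : Type u} [AddCommGroup X] [Module ℂ X] [TopologicalSpace X] (M : FModule A X) : Prop :=
  ∀ x, M.act 1 x = x

/-- `X` is injective in the category of unital Fréchet modules over the unital algebra `A`. -/
def FModule.InjectiveUnital {A : Type v} [Ring A] [Module ℂ A] [TopologicalSpace A]
    {X : Type u} [AddCommGroup X] [Module ℂ X] [TopologicalSpace X] (M : FModule A X) : Prop :=
  ∀ (Y : Type u) [AddCommGroup Y] [Module ℂ Y] [TopologicalSpace Y] [Frechet Y]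
    (N : FModule A Y) (φ : X →L[ℂ] Y), N.Unital → (∀ a x, φ (M.act a x) = N.act a (φ x)) →
    (∃ ρ : Y →L[ℂ] X, ∀ x, ρ (φ x) = x) →
    ∃ ψ : Y →L[ℂ] X, (∀ a y, ψ (N.act a y) = M.act a (ψ y)) ∧ ∀ x, ψ (φ x) = x

/-- Weights on a monoid: an increasing sequence of positive functions, submultiplicative up to a
change of the index of the second factor. -/
structure Weights (S : Type) [Monoid S] where
  w : ℕ → S → ℝ
  pos : ∀ n s, 0 < w n s
  mono : ∀ n s, w n s ≤ w (n + 1) s
  submul : ∀ n, ∃ m, ∃ C : ℝ, ∀ s t, w n (s * t) ≤ C * (w n s * w m t)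

variable {S : Type} [Monoid S]

/-- The weighted sequence space `ℓ¹(S, w)`: `∑ |a s| w_n(s) < ∞` for all `n`. -/
def L1sub (W : Weights S) : Submodule ℂ (S → ℂ) where
  carrier := {a | ∀ n, Summable fun s => ‖a s‖ * W.w n s}
  add_mem' := by
    intro a b ha hb n
    refine Summable.of_nonneg_of_le (fun s => mul_nonneg (norm_nonneg _) (W.pos n s).le)
      (fun s => ?_) ((ha n).add (hb n))
    rw [← add_mul]
    exact mul_le_mul_of_nonneg_right (norm_add_le _ _) (W.pos n s).le
  zero_mem' := by
    intro n
    simp only [Pi.zero_apply, norm_zero, zero_mul]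
    exact summable_zero
  smul_mem' := by
    intro c a ha n
    refine ((ha n).mul_left ‖c‖).congr fun s => ?_
    rw [Pi.smul_apply, smul_eq_mul, norm_mul, mul_assoc]

/-- The type of the weighted convolution algebra `ℓ¹(S, w)`. -/
def L1 (W : Weights S) : Type := L1sub W

noncomputable instance (W : Weights S) : AddCommGroup (L1 W) :=
  inferInstanceAs (AddCommGroup (L1sub W))

noncomputable instance (W : Weights S) : Module ℂ (L1 W) :=
  inferInstanceAs (Module ℂ (L1sub W))

namespace L1

/-- The coefficient at `s`. -/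
def c {W : Weights S} (a : L1 W) (s : S) : ℂ := a.1 s

end L1

end Pool.Agent.helper52.FM
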