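import Pool.Agent.helper52.FM.Grp

set_option autoImplicit false

/-!
# Final statements
-/

namespace Pool.Agent.helper52.FM

open Filter Topology

universe u

theorem all_zero {S : Type} [Monoid S] [Infinite S] [IsRightCancelMul S] {W : Weights S}
    (hS : W.Schwartz) (hD : W.Div) {X : Type u} [AddCommGroup X] [Module ℂ X]
    [TopologicalSpace X] [Frechet X] (M : FModule (L1 W) X) :
    (M.Unital → M.InjectiveUnital → ∀ x : X, x = 0) ∧ (M.Injective ↔ ∀ a x, M.act a x = 0) :=
  ⟨fun hU hI => no_injective hS hD M hU hI,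
    injective_iff (fun _ _ _ _ _ N hU hI => no_injective hS hD N hU hI) M⟩

theorem ker_zero {S : Type} [Monoid S] [Infinite S] [IsRightCancelMul S] {W : Weights S}
    (hS : W.Schwartz) (hD : W.Div) {χ : L1 W →ₗ[ℂ] ℂ} {hm : ∀ a b, χ (a * b) = χ a * χ b}
    (hc : Continuous χ) (h1 : χ 1 = 1) {X : Type u} [AddCommGroup X] [Module ℂ X]
    [TopologicalSpace X] [Frechet X] (M : FModule (kerAlg χ hm) X) (hI : M.Injective) (x : X) :
    x = 0 :=
  no_injective hS hD (extMod (L1.isFrechetAlgebra W) hc h1 M) (extMod_unital _ hc h1 M)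
    (extMod_injective _ hc h1 M hI) x

theorem div_of_unit {S : Type} [Monoid S] (W : Weights S) (h : ∀ s : S, IsUnit s) : W.Div := by
  intro n
  obtain ⟨m, C, hC⟩ := W.submul n
  refine ⟨m, fun s => ?_⟩
  obtain ⟨v, rfl⟩ := h s
  refine ⟨C * W.w n ↑v⁻¹, fun t => ?_⟩
  have h1 := hC ↑v⁻¹ (↑v * t)
  rw [Units.inv_mul_cancel_left] at h1
  exact h1.trans (le_of_eq (by ring))

/-- the weights `(1 + k)^n` on the natural numbers -/
noncomputable def natW : Weights (Multiplicative ℕ) :=
  Weights.ofLength (fun s => s.toAdd) (fun _ _ => le_of_eq rfl)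

theorem natW_schwartz : natW.Schwartz := by
  refine Weights.ofLength_schwartz _ _ fun R => ?_
  exact (Set.finite_Iic R).preimage (Multiplicative.toAdd.injective.injOn)

theorem natW_div : natW.Div := by
  intro n
  refine ⟨n, fun s => ⟨1, fun t => ?_⟩⟩
  rw [one_mul]
  change (1 + ((t.toAdd : ℕ) : ℝ)) ^ n ≤ (1 + (((s * t).toAdd : ℕ) : ℝ)) ^ n
  refine pow_le_pow_left₀ (by positivity) ?_ n
  rw [toAdd_mul]
  push_cast
  have : (0 : ℝ) ≤ (s.toAdd : ℕ) := Nat.cast_nonneg _
  linarith

theorem exists_literal : ∃ (A : Type) (_ : NonUnitalRing A) (_ : Module ℂ A)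
    (_ : TopologicalSpace A), IsFrechetAlgebra A ∧
      ∀ (X : Type u) [AddCommGroup X] [Module ℂ X] [TopologicalSpace X] [Frechet X]
        (M : FModule A X), M.Injective → ∀ x : X, x = 0 := by
  have hg : L1.Gr natW (fun _ => 1) := Weights.ofLength_gr _ _
  have hm := chi_mul natW (fun _ => 1) hg fun _ _ => (mul_one 1).symm
  have hc := chi_cont natW (fun _ => 1) hg
  have h1 := chi_one natW (fun _ => 1) hg rfl
  exact ⟨kerAlg (chi natW (fun _ => 1) hg) hm, inferInstance, inferInstance, inferInstance,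
    isFrechetAlgebra_ker (L1.isFrechetAlgebra natW) hc,
    fun X _ _ _ _ M hI x => ker_zero natW_schwartz natW_div hc h1 M hI x⟩

end Pool.Agent.helper52.FM
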