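import Pool.Agent.helper52.FM.Bil

set_option autoImplicit false

/-!
# Injective modules in the category of all Fréchet modules over a unital algebra
-/

namespace Pool.Agent.helper52.FM

open Filter Topology

universe u v w

/-- the seminorms of a product -/
noncomputable def prodSem {X : Type u} [AddCommGroup X] [Module ℂ X] {Y : Type w} [AddCommGroup Y]
    [Module ℂ Y] (p : ℕ → Seminorm ℂ X) (q : ℕ → Seminorm ℂ Y) (k : ℕ) : Seminorm ℂ (X × Y) :=
  (p k).comp (LinearMap.fst ℂ X Y) + (q k).comp (LinearMap.snd ℂ X Y)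

theorem prodSem_apply {X : Type u} [AddCommGroup X] [Module ℂ X] {Y : Type w} [AddCommGroup Y]
    [Module ℂ Y] (p : ℕ → Seminorm ℂ X) (q : ℕ → Seminorm ℂ Y) (k : ℕ) (z : X × Y) :
    prodSem p q k z = p k z.1 + q k z.2 := rfl

theorem prod_withSeminorms {X : Type u} [AddCommGroup X] [Module ℂ X] [TopologicalSpace X]
    {Y : Type w} [AddCommGroup Y] [Module ℂ Y] [TopologicalSpace Y] {p : ℕ → Seminorm ℂ X}
    {q : ℕ → Seminorm ℂ Y} (hp : WithSeminorms (p : SeminormFamily ℂ X ℕ))
    (hq : WithSeminorms (q : SeminormFamily ℂ Y ℕ)) :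
    WithSeminorms (prodSem p q : SeminormFamily ℂ (X × Y) ℕ) := by
  have : IsTopologicalAddGroup X := hp.topologicalAddGroup
  have : IsTopologicalAddGroup Y := hq.topologicalAddGroup
  rw [SeminormFamily.withSeminorms_iff_nhds_eq_iInf]
  have hc : ∀ k, Continuous (prodSem p q k) := fun k =>
    ((hp.continuous_seminorm k).comp continuous_fst).add
      ((hq.continuous_seminorm k).comp continuous_snd)
  have hev : ∀ k, ∀ ε > 0, ∀ᶠ z in ⨅ i, comap (prodSem p q i) (𝓝 0), prodSem p q k z < ε := by
    intro k ε hε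
    have h1 : ∀ᶠ z in comap (prodSem p q k) (𝓝 0), prodSem p q k z < ε :=
      (gt_mem_nhds hε).comap (prodSem p q k)
    exact iInf_le (fun i => comap (prodSem p q i) (𝓝 0)) k h1
  refine le_antisymm (le_iInf fun k => ?_) ?_
  · rw [← tendsto_iff_comap]
    have := (hc k).tendsto 0
    rwa [map_zero] at this
  · change _ ≤ 𝓝 ((0 : X), (0 : Y))
    rw [nhds_prod_eq]
    refine le_inf ?_ ?_
    · rw [← tendsto_iff_comap, hp.tendsto_nhds]
      intro k ε hε
      filter_upwards [hev k ε hε] with z hz
      rw [sub_zero]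
      rw [prodSem_apply] at hz
      have : 0 ≤ q k z.2 := apply_nonneg _ _
      linarith
    · rw [← tendsto_iff_comap, hq.tendsto_nhds]
      intro k ε hε
      filter_upwards [hev k ε hε] with z hz
      rw [sub_zero]
      rw [prodSem_apply] at hz
      have : 0 ≤ p k z.1 := apply_nonneg _ _
      linarith

/-- a product of two Fréchet spaces is a Fréchet space -/
theorem frechet_prod (X : Type u) [AddCommGroup X] [Module ℂ X] [TopologicalSpace X]
    [hX : Frechet X] (Y : Type w) [AddCommGroup Y] [Module ℂ Y] [TopologicalSpace Y]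
    [hY : Frechet Y] : Frechet (X × Y) := by
  obtain ⟨p, pm, hp, ps, pc⟩ := hX.out
  obtain ⟨q, qm, hq, qs, qc⟩ := hY.out
  refine ⟨prodSem p q, fun i j hij z => add_le_add (pm hij z.1) (qm hij z.2),
    prod_withSeminorms hp hq, fun z hz => ?_, fun s hs => ?_⟩
  · have h1 : ∀ k, p k z.1 = 0 ∧ q k z.2 = 0 := by
      intro k
      have h := hz k
      rw [prodSem_apply] at h
      have h2 : 0 ≤ p k z.1 := apply_nonneg _ _
      have h3 : 0 ≤ q k z.2 := apply_nonneg _ _
      constructor <;> linarith
    exact Prod.ext (ps z.1 fun k => (h1 k).1) (qs z.2 fun k => (h1 k).2)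
  · obtain ⟨x, hx⟩ := pc (fun i => (s i).1) (fun k ε hε => by
      obtain ⟨N, hN⟩ := hs k ε hε
      refine ⟨N, fun i hi j hj => ?_⟩
      have h := hN i hi j hj
      rw [prodSem_apply] at h
      have h3 : 0 ≤ q k (s i - s j).2 := apply_nonneg _ _
      have h4 : (s i - s j).1 = (s i).1 - (s j).1 := rfl
      rw [h4] at h
      linarith)
    obtain ⟨y, hy⟩ := qc (fun i => (s i).2) (fun k ε hε => by
      obtain ⟨N, hN⟩ := hs k ε hε
      refine ⟨N, fun i hi j hj => ?_⟩
      have h := hN i hi j hj
      rw [prodSem_apply] at h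
      have h3 : 0 ≤ p k (s i - s j).1 := apply_nonneg _ _
      have h4 : (s i - s j).2 = (s i).2 - (s j).2 := rfl
      rw [h4] at h
      linarith)
    exact ⟨(x, y), hx.prodMk_nhds hy⟩

section

variable {A : Type v} [Ring A] [Module ℂ A] [TopologicalSpace A]
  {X : Type u} [AddCommGroup X] [Module ℂ X] [TopologicalSpace X]
  {Y : Type u} [AddCommGroup Y] [Module ℂ Y] [TopologicalSpace Y]

/-- the product of two modules -/
def prodMod (M : FModule A X) (N : FModule A Y) : FModule A (X × Y) where
  act := LinearMap.mk₂ ℂ (fun a z => (M.act a z.1, N.act a z.2))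
    (fun a b z => by simp) (fun c a z => by simp)
    (fun a z z' => by simp) (fun c a z => by simp)
  act_mul a b z := by
    change (M.act (a * b) z.1, N.act (a * b) z.2) =
      (M.act a (M.act b z.1), N.act a (N.act b z.2))
    rw [M.act_mul, N.act_mul]
  cont := by
    change Continuous fun q : A × (X × Y) => (M.act q.1 q.2.1, N.act q.1 q.2.2)
    exact (M.cont.comp (continuous_fst.prodMk (continuous_fst.comp continuous_snd))).prodMk
      (N.cont.comp (continuous_fst.prodMk (continuous_snd.comp continuous_snd)))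

theorem prodMod_act (M : FModule A X) (N : FModule A Y) (a : A) (z : X × Y) :
    (prodMod M N).act a z = (M.act a z.1, N.act a z.2) := rfl

/-- the action of the unit, a continuous projection -/
def FModule.E (M : FModule A X) : X →L[ℂ] X :=
  ⟨M.act 1, M.cont.comp ((continuous_const (y := (1 : A))).prodMk continuous_id)⟩

theorem FModule.E_apply (M : FModule A X) (x : X) : M.E x = M.act 1 x := rfl

theorem FModule.one_act (M : FModule A X) (a : A) (x : X) : M.act 1 (M.act a x) = M.act a x := by
  rw [← M.act_mul, one_mul]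

theorem FModule.act_one (M : FModule A X) (a : A) (x : X) : M.act a (M.act 1 x) = M.act a x := by
  rw [← M.act_mul, mul_one]

/-- the unital part of a module -/
def FModule.up (M : FModule A X) : Submodule ℂ X := LinearMap.ker (LinearMap.id - M.act 1)

theorem FModule.mem_up (M : FModule A X) (x : X) : x ∈ M.up ↔ M.act 1 x = x := by
  rw [FModule.up, LinearMap.mem_ker, LinearMap.sub_apply, LinearMap.id_apply, sub_eq_zero]
  exact eq_comm

/-- the unital part as a module -/
def FModule.upMod (M : FModule A X) : FModule A M.up where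
  act := LinearMap.mk₂ ℂ (fun a x => ⟨M.act a x, (M.mem_up _).2 (M.one_act a x)⟩)
    (fun a b z => Subtype.ext (by simp)) (fun c a z => Subtype.ext (by simp))
    (fun a z z' => Subtype.ext (by simp)) (fun c a z => Subtype.ext (by simp))
  act_mul a b z := Subtype.ext (M.act_mul a b z)
  cont := Continuous.subtype_mk (M.cont.comp (continuous_fst.prodMk
    (continuous_subtype_val.comp continuous_snd))) _

theorem FModule.upMod_act (M : FModule A X) (a : A) (x : M.up) :
    ((M.upMod.act a x : M.up) : X) = M.act a x := rfl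

theorem FModule.upMod_unital (M : FModule A X) : M.upMod.Unital := fun x =>
  Subtype.ext ((M.mem_up _).1 x.2)

/-- a module with zero action is injective -/
theorem injective_of_act_zero (M : FModule A X) (h : ∀ a x, M.act a x = 0) : M.Injective := by
  intro Y _ _ _ hY N φ hφ ⟨ρ, hρ⟩
  obtain ⟨q, -, hq, -⟩ := hY.out
  have : IsTopologicalAddGroup Y := hq.topologicalAddGroup
  refine ⟨ρ.comp (ContinuousLinearMap.id ℂ Y - N.E), fun a y => ?_, fun x => ?_⟩
  · rw [h]
    change ρ (N.act a y - N.act 1 (N.act a y)) = 0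
    rw [N.one_act, sub_self, map_zero]
  · change ρ (φ x - N.act 1 (φ x)) = x
    rw [← hφ, h, map_zero, sub_zero, hρ]

theorem upMod_injective [hX : Frechet X] (M : FModule A X) (hI : M.Injective) :
    M.upMod.InjectiveUnital := by
  obtain ⟨p, -, hp, -⟩ := hX.out
  have : IsTopologicalAddGroup X := hp.topologicalAddGroup
  intro Y _ _ _ hY N φ hU hφ ⟨ρ, hρ⟩
  obtain ⟨q, -, hq, -⟩ := hY.out
  have : IsTopologicalAddGroup Y := hq.topologicalAddGroup
  have hF : Frechet (Y × X) := frechet_prod Y X
  -- the projection onto the unital part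
  let e : X →L[ℂ] M.up := ⟨LinearMap.codRestrict M.up (M.act 1) fun x =>
    (M.mem_up _).2 (M.one_act 1 x), Continuous.subtype_mk M.E.continuous _⟩
  have he : ∀ x, ((e x : M.up) : X) = M.act 1 x := fun _ => rfl
  have he1 : ∀ x : M.up, e x = x := fun x => Subtype.ext ((M.mem_up _).1 x.2)
  let Φ : X →L[ℂ] Y × X := (φ.comp e).prod (ContinuousLinearMap.id ℂ X - M.E)
  have hΦ : ∀ x, Φ x = (φ (e x), x - M.act 1 x) := fun _ => rfl
  let R : Y × X →L[ℂ] X := (M.up.subtypeL.comp ρ).comp (ContinuousLinearMap.fst ℂ Y X) +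
    (ContinuousLinearMap.id ℂ X - M.E).comp (ContinuousLinearMap.snd ℂ Y X)
  have hR : ∀ z, R z = (ρ z.1 : X) + (z.2 - M.act 1 z.2) := fun _ => rfl
  obtain ⟨Ψ, hΨ, hΨ'⟩ := hI (Y × X) (prodMod N M) Φ (fun a x => by
    rw [hΦ, hΦ, prodMod_act, M.one_act, sub_self, map_sub, M.act_one, sub_self, ← hφ]
    congr 2
    refine Subtype.ext ?_
    rw [M.upMod_act, he, he, M.one_act, M.act_one]) ⟨R, fun x => by
      rw [hR, hΦ]
      change ((ρ (φ (e x)) : M.up) : X) + (x - M.act 1 x - M.act 1 (x - M.act 1 x)) = x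
      rw [hρ, he, map_sub, M.one_act]
      abel⟩
  refine ⟨e.comp (Ψ.comp (ContinuousLinearMap.inl ℂ Y X)), fun a y => ?_, fun x => ?_⟩
  · refine Subtype.ext ?_
    rw [M.upMod_act]
    change M.act 1 (Ψ (N.act a y, 0)) = M.act a (M.act 1 (Ψ (y, 0)))
    have h1 := hΨ a (y, 0)
    rw [prodMod_act, map_zero] at h1
    rw [h1, M.one_act, M.act_one]
  · refine Subtype.ext ?_
    change M.act 1 (Ψ (φ x, 0)) = x
    have h1 : Φ (x : X) = (φ x, 0) := by
      rw [hΦ, he1, (M.mem_up _).1 x.2, sub_self]
    rw [← h1, hΨ', (M.mem_up _).1 x.2]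

/-- if no non-zero unital module is injective, then the injective modules in the category of all
modules are the modules with zero action -/
theorem injective_iff [hX : Frechet X]
    (h : ∀ (Y : Type u) [AddCommGroup Y] [Module ℂ Y] [TopologicalSpace Y] [Frechet Y]
      (N : FModule A Y), N.Unital → N.InjectiveUnital → ∀ y : Y, y = 0)
    (M : FModule A X) : M.Injective ↔ ∀ a x, M.act a x = 0 := by
  refine ⟨fun hI a x => ?_, injective_of_act_zero M⟩
  have hcl : IsClosed (M.up : Set X) := by
    obtain ⟨p, -, hp, ps, -⟩ := hX.out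
    have : IsTopologicalAddGroup X := hp.topologicalAddGroup
    have hT1 : T1Space X := by
      refine hp.T1_of_separating fun x hx => ?_
      by_contra hcon
      push Not at hcon
      exact hx (ps x hcon)
    exact isClosed_singleton.preimage (ContinuousLinearMap.id ℂ X - M.E).continuous
  have hF : Frechet M.up := frechet_closed M.up hcl
  have h1 := h M.up M.upMod M.upMod_unital (upMod_injective M hI)
    ⟨M.act a x, (M.mem_up _).2 (M.one_act a x)⟩
  exact congrArg Subtype.val h1

end

end Pool.Agent.helper52.FM
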