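import Pool.Agent.helper52.FM.Main1
import Pool.Agent.helper52.FM.Char
import Pool.Agent.helper52.FM.Lit

set_option autoImplicit false

/-!
# Characters of weighted convolution algebras, groups, length functions
-/

namespace Pool.Agent.helper52.FM

open Filter Topology

universe u v

variable {S : Type} [Monoid S]

/-- the functional `a ↦ ∑ a(s) g(s)` -/
noncomputable def chi (W : Weights S) (g : S → ℂ) (hg : L1.Gr W g) : L1 W →ₗ[ℂ] ℂ where
  toFun a := L1.T a g
  map_add' a b := L1.T_add a b hg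
  map_smul' z a := L1.T_smul z a g

theorem chi_apply (W : Weights S) (g : S → ℂ) (hg : L1.Gr W g) (a : L1 W) :
    chi W g hg a = ∑' s, a.c s * g s := rfl

theorem chi_cont (W : Weights S) (g : S → ℂ) (hg : L1.Gr W g) : Continuous (chi W g hg) := by
  have hgr : IsTopologicalAddGroup (L1 W) := (L1.withSeminorms W).topologicalAddGroup
  obtain ⟨n, C, hC, h⟩ := hg
  refine continuous_of_continuousAt_zero (chi W g ⟨n, C, hC, h⟩) ?_
  rw [ContinuousAt, map_zero]
  refine squeeze_zero_norm (fun a => L1.T_bound a hC h) ?_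
  have h1 : Continuous fun a : L1 W => C * L1.N W n a :=
    continuous_const.mul ((L1.withSeminorms W).continuous_seminorm n)
  have h2 := h1.tendsto 0
  simpa using h2

theorem chi_mul (W : Weights S) (g : S → ℂ) (hg : L1.Gr W g) (hm : ∀ s t, g (s * t) = g s * g t)
    (a b : L1 W) : chi W g hg (a * b) = chi W g hg a * chi W g hg b := by
  change L1.T (a * b) g = L1.T a g * L1.T b g
  rw [L1.T_mul a b hg]
  have e1 : (fun s => L1.T b fun t => g (s * t)) = fun s => L1.T b g * g s := by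
    funext s
    have e2 : (fun t => g (s * t)) = fun t => g s * g t := funext fun t => hm s t
    rw [e2, L1.T_mul_right, mul_comm]
  rw [e1, L1.T_mul_right, mul_comm]

theorem chi_one (W : Weights S) (g : S → ℂ) (hg : L1.Gr W g) (h1 : g 1 = 1) :
    chi W g hg 1 = 1 := by
  change L1.T (1 : L1 W) g = 1
  rw [L1.one_def, L1.T_e, h1]

theorem Weights.div_group {G : Type} [Group G] (W : Weights G) : W.Div := by
  intro n
  obtain ⟨m, C, h⟩ := W.submul n
  refine ⟨m, fun s => ⟨C * W.w n s⁻¹, fun t => ?_⟩⟩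
  have h1 := h s⁻¹ (s * t)
  rw [inv_mul_cancel_left] at h1
  exact h1.trans (le_of_eq (by ring))

theorem L1.e_mul_e (W : Weights S) (s t : S) : L1.e W s * L1.e W t = L1.e W (s * t) :=
  L1.T_ext fun g hg => by
    rw [L1.T_mul _ _ hg, L1.T_e, L1.T_e, L1.T_e]

/-- over the algebra of a finite right cancellative monoid the trivial module is injective -/
theorem finite_monoid {G : Type} [Monoid G] [IsRightCancelMul G] [Finite G] (W : Weights G) :
    ∃ M : FModule (L1 W) ℂ, M.Unital ∧ M.InjectiveUnital := by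
  classical
  have := Fintype.ofFinite G
  have hg : L1.Gr W (fun _ => 1) := by
    refine ⟨0, ∑ s, (W.w 0 s)⁻¹, Finset.sum_nonneg fun s _ => inv_nonneg.2 (W.pos 0 s).le,
      fun s => ?_⟩
    rw [norm_one, ← inv_mul_cancel₀ (W.pos 0 s).ne']
    exact mul_le_mul_of_nonneg_right (Finset.single_le_sum
      (fun s _ => inv_nonneg.2 (W.pos 0 s).le) (Finset.mem_univ s)) (W.pos 0 s).le
  have hmul : ∀ s t : G, (fun _ => (1 : ℂ)) (s * t) = (fun _ => (1 : ℂ)) s * (fun _ => (1 : ℂ)) t :=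
    fun _ _ => (mul_one 1).symm
  let M : FModule (L1 W) ℂ :=
    { act := (LinearMap.lsmul ℂ ℂ) ∘ₗ chi W (fun _ => 1) hg
      act_mul := fun a b x => by
        change chi W (fun _ => 1) hg (a * b) • x =
          chi W (fun _ => 1) hg a • (chi W (fun _ => 1) hg b • x)
        rw [chi_mul W _ hg hmul, smul_smul]
      cont := ((chi_cont W _ hg).comp continuous_fst).smul continuous_snd }
  have hM : ∀ a x, M.act a x = chi W (fun _ => 1) hg a * x := fun _ _ => rfl
  refine ⟨M, fun x => ?_, ?_⟩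
  · rw [hM, chi_one W _ hg rfl, one_mul]
  intro Y _ _ _ _ N φ hU hφ ⟨ρ, hρ⟩
  have hcN : ∀ a, Continuous (N.act a) := fun a => N.cont.comp (continuous_const.prodMk
    continuous_id)
  have hcard : (Fintype.card G : ℂ) ≠ 0 := Nat.cast_ne_zero.2 Fintype.card_ne_zero
  let ψ : Y →L[ℂ] ℂ := (Fintype.card G : ℂ)⁻¹ • ∑ g : G, ρ.comp ⟨N.act (L1.e W g), hcN _⟩
  have hψ : ∀ y, ψ y = (Fintype.card G : ℂ)⁻¹ * ∑ g : G, ρ (N.act (L1.e W g) y) := by
    intro y
    change ((Fintype.card G : ℂ)⁻¹ • ∑ g : G,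
      ρ.comp (⟨N.act (L1.e W g), hcN _⟩ : Y →L[ℂ] Y)) y = _
    rw [smul_apply, sum_apply]
    rfl
  have hinv : ∀ h y, ψ (N.act (L1.e W h) y) = ψ y := by
    intro h y
    rw [hψ, hψ]
    congr 1
    rw [← Equiv.sum_comp (Equiv.ofBijective (fun g : G => g * h)
      (Finite.injective_iff_bijective.1 (mul_left_injective h))) fun g => ρ (N.act (L1.e W g) y)]
    refine Finset.sum_congr rfl fun g _ => ?_
    rw [← N.act_mul, L1.e_mul_e]
    rfl
  have hcut : ∀ a : L1 W, a = ∑ s, a.c s • L1.e W s := by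
    intro a
    refine L1.ext' fun t => ?_
    have h1 := L1.c_cut a Finset.univ t
    rw [if_pos (Finset.mem_univ t)] at h1
    exact h1.symm
  have hchi : ∀ a : L1 W, chi W (fun _ => 1) hg a = ∑ s, a.c s := by
    intro a
    rw [chi_apply, tsum_fintype]
    exact Finset.sum_congr rfl fun s _ => mul_one _
  refine ⟨ψ, fun a y => ?_, fun x => ?_⟩
  · rw [hM, hchi, Finset.sum_mul]
    conv_lhs => rw [hcut a]
    rw [map_sum, LinearMap.sum_apply, map_sum]
    refine Finset.sum_congr rfl fun s _ => ?_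
    rw [map_smul, LinearMap.smul_apply, map_smul, hinv, smul_eq_mul]
  · rw [hψ]
    have h1 : ∀ g : G, ρ (N.act (L1.e W g) (φ x)) = x := by
      intro g
      rw [← hφ, hρ, hM]
      change L1.T (L1.e W g) (fun _ => 1) * x = x
      rw [L1.T_e, one_mul]
    simp only [h1]
    rw [Finset.sum_const, Finset.card_univ, nsmul_eq_mul, ← mul_assoc, inv_mul_cancel₀ hcard,
      one_mul]

/-- the polynomial weights of a length function -/
noncomputable def Weights.ofLength (ℓ : S → ℕ) (hℓ : ∀ s t, ℓ (s * t) ≤ ℓ s + ℓ t) :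
    Weights S where
  w n s := (1 + (ℓ s : ℝ)) ^ n
  pos n s := by positivity
  mono n s := by
    refine pow_le_pow_right₀ ?_ (Nat.le_succ n)
    have : (0 : ℝ) ≤ ℓ s := Nat.cast_nonneg _
    linarith
  submul n := by
    refine ⟨n, 1, fun s t => ?_⟩
    rw [one_mul, ← mul_pow]
    refine pow_le_pow_left₀ (by positivity) ?_ n
    have h1 : (ℓ (s * t) : ℝ) ≤ ℓ s + ℓ t := by exact_mod_cast hℓ s t
    have h2 : (0 : ℝ) ≤ ℓ s := Nat.cast_nonneg _
    have h3 : (0 : ℝ) ≤ ℓ t := Nat.cast_nonneg _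
    nlinarith [mul_nonneg h2 h3]

theorem Weights.ofLength_schwartz (ℓ : S → ℕ) (hℓ : ∀ s t, ℓ (s * t) ≤ ℓ s + ℓ t)
    (hf : ∀ R, {s | ℓ s ≤ R}.Finite) : (Weights.ofLength ℓ hℓ).Schwartz := by
  intro n
  refine ⟨n + 1, ?_⟩
  have ht : Tendsto ℓ cofinite atTop := by
    rw [tendsto_atTop]
    intro R
    have := hf R
    filter_upwards [this.compl_mem_cofinite] with s hs
    have : ¬ ℓ s ≤ R := hs
    omega
  have h1 : Tendsto (fun k : ℕ => (1 + (k : ℝ))⁻¹) atTop (𝓝 0) :=
    (tendsto_inv_atTop_zero (𝕜 := ℝ)).comp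
      (tendsto_atTop_add_const_left _ 1 tendsto_natCast_atTop_atTop)
  refine (h1.comp ht).congr fun s => ?_
  change (1 + (ℓ s : ℝ))⁻¹ = (1 + (ℓ s : ℝ)) ^ n / (1 + (ℓ s : ℝ)) ^ (n + 1)
  have : (1 + (ℓ s : ℝ)) ≠ 0 := by positivity
  rw [pow_succ]
  field_simp

theorem Weights.ofLength_gr (ℓ : S → ℕ) (hℓ : ∀ s t, ℓ (s * t) ≤ ℓ s + ℓ t) :
    L1.Gr (Weights.ofLength ℓ hℓ) (fun _ => 1) := by
  refine ⟨0, 1, zero_le_one, fun s => ?_⟩
  change ‖(1 : ℂ)‖ ≤ 1 * (1 + (ℓ s : ℝ)) ^ 0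
  simp

end Pool.Agent.helper52.FM
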