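import Pool.Agent.helper52.FM.Defs

set_option autoImplicit false

/-!
# The weighted convolution algebra
-/

namespace Pool.Agent.helper52.FM

open Filter Topology

variable {S : Type} [Monoid S] {W : Weights S}

namespace L1

theorem ext' {a b : L1 W} (h : ∀ s, a.c s = b.c s) : a = b := Subtype.ext (funext h)

theorem summable (a : L1 W) (n : ℕ) : Summable fun s => ‖a.c s‖ * W.w n s := a.2 n

@[simp] theorem c_add (a b : L1 W) (s : S) : (a + b).c s = a.c s + b.c s := rfl
@[simp] theorem c_sub (a b : L1 W) (s : S) : (a - b).c s = a.c s - b.c s := rfl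
@[simp] theorem c_neg (a : L1 W) (s : S) : (-a).c s = -a.c s := rfl
@[simp] theorem c_zero (s : S) : (0 : L1 W).c s = 0 := rfl
@[simp] theorem c_smul (z : ℂ) (a : L1 W) (s : S) : (z • a).c s = z * a.c s := rfl

/-- The `n`-th norm. -/
noncomputable def N (W : Weights S) (n : ℕ) : Seminorm ℂ (L1 W) :=
  Seminorm.of (fun a => ∑' s, ‖a.c s‖ * W.w n s)
    (fun a b => by
      rw [← (a.summable n).tsum_add (b.summable n)]
      refine Summable.tsum_le_tsum (fun s => ?_) ((a + b).summable n)
        ((a.summable n).add (b.summable n))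
      rw [← add_mul]
      exact mul_le_mul_of_nonneg_right (norm_add_le _ _) (W.pos n s).le)
    (fun z a => by
      rw [← tsum_mul_left]
      refine tsum_congr fun s => ?_
      rw [c_smul, norm_mul, mul_assoc])

theorem N_apply (n : ℕ) (a : L1 W) : N W n a = ∑' s, ‖a.c s‖ * W.w n s := rfl

theorem N_mono : Monotone (N W) := by
  refine monotone_nat_of_le_succ fun n a => ?_
  exact Summable.tsum_le_tsum (fun s => mul_le_mul_of_nonneg_left (W.mono n s) (norm_nonneg _))
    (a.summable n) (a.summable (n + 1))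

theorem norm_c_mul_le (n : ℕ) (a : L1 W) (s : S) : ‖a.c s‖ * W.w n s ≤ N W n a :=
  (a.summable n).le_tsum s fun t _ => mul_nonneg (norm_nonneg _) (W.pos n t).le

theorem norm_c_le (n : ℕ) (a : L1 W) (s : S) : ‖a.c s‖ ≤ N W n a / W.w n s := by
  rw [le_div_iff₀ (W.pos n s)]
  exact norm_c_mul_le n a s

noncomputable instance : TopologicalSpace (L1 W) :=
  (show SeminormFamily ℂ (L1 W) ℕ from N W).moduleFilterBasis.topology

theorem withSeminorms (W : Weights S) : WithSeminorms (show SeminormFamily ℂ (L1 W) ℕ from N W) :=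
  ⟨rfl⟩

/-! ### pairing with a function of moderate growth -/

/-- `g` grows at most like the weights. -/
def Gr (W : Weights S) (g : S → ℂ) : Prop := ∃ n, ∃ C : ℝ, 0 ≤ C ∧ ∀ s, ‖g s‖ ≤ C * W.w n s

/-- the pairing `∑ a(s) g(s)` -/
noncomputable def T (a : L1 W) (g : S → ℂ) : ℂ := ∑' s, a.c s * g s

theorem T_summable_norm (a : L1 W) {g : S → ℂ} (hg : Gr W g) :
    Summable fun s => ‖a.c s * g s‖ := by
  obtain ⟨n, C, hC, h⟩ := hg
  refine Summable.of_nonneg_of_le (fun s => norm_nonneg _) (fun s => ?_)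
    ((a.summable n).mul_left C)
  rw [norm_mul]
  calc ‖a.c s‖ * ‖g s‖ ≤ ‖a.c s‖ * (C * W.w n s) :=
        mul_le_mul_of_nonneg_left (h s) (norm_nonneg _)
    _ = C * (‖a.c s‖ * W.w n s) := by ring

theorem T_summable (a : L1 W) {g : S → ℂ} (hg : Gr W g) : Summable fun s => a.c s * g s :=
  (T_summable_norm a hg).of_norm

theorem T_bound (a : L1 W) {g : S → ℂ} {n : ℕ} {C : ℝ} (hC : 0 ≤ C)
    (h : ∀ s, ‖g s‖ ≤ C * W.w n s) : ‖T a g‖ ≤ C * N W n a := by
  have hg : Gr W g := ⟨n, C, hC, h⟩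
  refine (norm_tsum_le_tsum_norm (T_summable_norm a hg)).trans ?_
  rw [N_apply, ← tsum_mul_left]
  refine Summable.tsum_le_tsum (fun s => ?_) (T_summable_norm a hg) ((a.summable n).mul_left C)
  rw [norm_mul]
  calc ‖a.c s‖ * ‖g s‖ ≤ ‖a.c s‖ * (C * W.w n s) :=
        mul_le_mul_of_nonneg_left (h s) (norm_nonneg _)
    _ = C * (‖a.c s‖ * W.w n s) := by ring

theorem T_add (a b : L1 W) {g : S → ℂ} (hg : Gr W g) : T (a + b) g = T a g + T b g := by
  unfold T
  rw [← (T_summable a hg).tsum_add (T_summable b hg)]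
  exact tsum_congr fun s => by rw [c_add, add_mul]

theorem T_smul (z : ℂ) (a : L1 W) (g : S → ℂ) : T (z • a) g = z * T a g := by
  unfold T
  rw [← tsum_mul_left]
  exact tsum_congr fun s => by rw [c_smul, mul_assoc]

theorem T_zero_left (g : S → ℂ) : T (0 : L1 W) g = 0 := by
  unfold T
  simp

theorem T_zero (a : L1 W) : T a (fun _ => 0) = 0 := by
  unfold T
  simp

theorem T_add_right (a : L1 W) {g h : S → ℂ} (hg : Gr W g) (hh : Gr W h) :
    T a (fun s => g s + h s) = T a g + T a h := by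
  unfold T
  rw [← (T_summable a hg).tsum_add (T_summable a hh)]
  exact tsum_congr fun s => by rw [mul_add]

theorem T_mul_right (a : L1 W) (z : ℂ) (g : S → ℂ) : T a (fun s => z * g s) = z * T a g := by
  unfold T
  rw [← tsum_mul_left]
  exact tsum_congr fun s => by ring

/-- translation preserves moderate growth -/
theorem Gr.left {g : S → ℂ} (hg : Gr W g) (s : S) : Gr W fun t => g (s * t) := by
  obtain ⟨n, C, hC, h⟩ := hg
  obtain ⟨m, C', h'⟩ := W.submul n
  have hC' : 0 ≤ C' := by
    have := h' 1 1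
    have h1 := W.pos n (1 * 1)
    have h2 := mul_pos (W.pos n 1) (W.pos m 1)
    by_contra hcon
    push Not at hcon
    nlinarith
  refine ⟨m, C * (C' * W.w n s), by have := (W.pos n s).le; positivity, fun t => ?_⟩
  calc ‖g (s * t)‖ ≤ C * W.w n (s * t) := h _
    _ ≤ C * (C' * (W.w n s * W.w m t)) := mul_le_mul_of_nonneg_left (h' s t) hC
    _ = C * (C' * W.w n s) * W.w m t := by ring

/-- partial pairing preserves moderate growth -/
theorem Gr.T {g : S → ℂ} (hg : Gr W g) (b : L1 W) : Gr W fun s => L1.T b fun t => g (s * t) := by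
  obtain ⟨n, C, hC, h⟩ := hg
  obtain ⟨m, C', h'⟩ := W.submul n
  have hC' : 0 ≤ C' := by
    have := h' 1 1
    have h1 := W.pos n (1 * 1)
    have h2 := mul_pos (W.pos n 1) (W.pos m 1)
    by_contra hcon
    push Not at hcon
    nlinarith
  have hN : 0 ≤ N W m b := apply_nonneg _ _
  refine ⟨n, C * C' * N W m b, by positivity, fun s => ?_⟩
  have hb := T_bound b (g := fun t => g (s * t)) (n := m) (C := C * (C' * W.w n s))
    (by have := (W.pos n s).le; positivity) (fun t => by
      calc ‖g (s * t)‖ ≤ C * W.w n (s * t) := h _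
        _ ≤ C * (C' * (W.w n s * W.w m t)) := mul_le_mul_of_nonneg_left (h' s t) hC
        _ = C * (C' * W.w n s) * W.w m t := by ring)
  refine hb.trans (le_of_eq (by ring))

/-- the indicator of a point -/
noncomputable def dl (u : S) : S → ℂ := Set.indicator {u} fun _ => 1

theorem gr_dl (u : S) : Gr W (dl u) := by
  refine ⟨0, (W.w 0 u)⁻¹, inv_nonneg.2 (W.pos 0 u).le, fun s => ?_⟩
  by_cases h : s = u
  · subst h
    rw [dl, Set.indicator_of_mem (Set.mem_singleton _), norm_one,
      inv_mul_cancel₀ (W.pos 0 s).ne']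
  · rw [dl, Set.indicator_of_notMem (by simpa using h), norm_zero]
    exact mul_nonneg (inv_nonneg.2 (W.pos 0 u).le) (W.pos 0 s).le

theorem T_dl (a : L1 W) (u : S) : T a (dl u) = a.c u := by
  unfold T
  rw [tsum_eq_single u]
  · simp [dl]
  · intro s hs
    rw [dl, Set.indicator_of_notMem (by simpa using hs), mul_zero]

/-! ### the product -/

/-- the coefficients of the product -/
noncomputable def mulc (a b : L1 W) (u : S) : ℂ :=
  ∑' q : ((fun q : S × S => q.1 * q.2) ⁻¹' {u} : Set (S × S)), a.c q.1.1 * b.c q.1.2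

theorem prod_summable (a b : L1 W) {g : S → ℂ} (hg : Gr W g) :
    Summable fun q : S × S => ‖a.c q.1 * b.c q.2 * g (q.1 * q.2)‖ := by
  obtain ⟨n, C, hC, h⟩ := hg
  obtain ⟨m, C', h'⟩ := W.submul n
  have h1 : Summable fun q : S × S => (‖a.c q.1‖ * W.w n q.1) * (‖b.c q.2‖ * W.w m q.2) :=
    (a.summable n).mul_of_nonneg (b.summable m)
      (fun s => mul_nonneg (norm_nonneg _) (W.pos n s).le)
      (fun s => mul_nonneg (norm_nonneg _) (W.pos m s).le)
  refine Summable.of_nonneg_of_le (fun q => norm_nonneg _) (fun q => ?_) (h1.mul_left (C * C'))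
  rw [norm_mul, norm_mul]
  calc ‖a.c q.1‖ * ‖b.c q.2‖ * ‖g (q.1 * q.2)‖
      ≤ ‖a.c q.1‖ * ‖b.c q.2‖ * (C * (C' * (W.w n q.1 * W.w m q.2))) :=
        mul_le_mul_of_nonneg_left ((h _).trans (mul_le_mul_of_nonneg_left (h' _ _) hC))
          (by positivity)
    _ = C * C' * ((‖a.c q.1‖ * W.w n q.1) * (‖b.c q.2‖ * W.w m q.2)) := by ring

theorem fiber_summable (a b : L1 W) (u : S) :
    Summable fun q : ((fun q : S × S => q.1 * q.2) ⁻¹' {u} : Set (S × S)) =>
      ‖a.c q.1.1 * b.c q.1.2‖ := by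
  have h1 := (prod_summable a b (gr_dl u)).subtype ((fun q : S × S => q.1 * q.2) ⁻¹' {u})
  refine h1.congr fun q => ?_
  have hq : q.1.1 * q.1.2 = u := q.2
  simp [Function.comp, dl, hq]

theorem mulc_norm_summable (a b : L1 W) (n : ℕ) :
    (Summable fun u => ‖mulc a b u‖ * W.w n u) ∧
      ∀ m (C : ℝ), (∀ s t, W.w n (s * t) ≤ C * (W.w n s * W.w m t)) →
        ∑' u, ‖mulc a b u‖ * W.w n u ≤ C * (N W n a * N W m b) := by
  have key : ∀ m (C : ℝ), (∀ s t, W.w n (s * t) ≤ C * (W.w n s * W.w m t)) →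
      (Summable fun u => ‖mulc a b u‖ * W.w n u) ∧
        ∑' u, ‖mulc a b u‖ * W.w n u ≤ C * (N W n a * N W m b) := by
    intro m C h'
    have h1 : Summable fun q : S × S => (‖a.c q.1‖ * W.w n q.1) * (‖b.c q.2‖ * W.w m q.2) :=
      (a.summable n).mul_of_nonneg (b.summable m)
        (fun s => mul_nonneg (norm_nonneg _) (W.pos n s).le)
        (fun s => mul_nonneg (norm_nonneg _) (W.pos m s).le)
    have hle : ∀ q : S × S, ‖a.c q.1‖ * ‖b.c q.2‖ * W.w n (q.1 * q.2) ≤
        C * ((‖a.c q.1‖ * W.w n q.1) * (‖b.c q.2‖ * W.w m q.2)) := by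
      intro q
      calc ‖a.c q.1‖ * ‖b.c q.2‖ * W.w n (q.1 * q.2)
          ≤ ‖a.c q.1‖ * ‖b.c q.2‖ * (C * (W.w n q.1 * W.w m q.2)) :=
            mul_le_mul_of_nonneg_left (h' _ _) (by positivity)
        _ = C * ((‖a.c q.1‖ * W.w n q.1) * (‖b.c q.2‖ * W.w m q.2)) := by ring
    have h2 : Summable fun q : S × S => ‖a.c q.1‖ * ‖b.c q.2‖ * W.w n (q.1 * q.2) :=
      Summable.of_nonneg_of_le (fun q => mul_nonneg (by positivity) (W.pos n _).le) hle
        (h1.mul_left C)
    have h3 := h2.hasSum.tsum_fiberwise (fun q : S × S => q.1 * q.2)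
    have h4 : ∀ u, ‖mulc a b u‖ * W.w n u ≤
        ∑' q : ((fun q : S × S => q.1 * q.2) ⁻¹' {u} : Set (S × S)),
          ‖a.c q.1.1‖ * ‖b.c q.1.2‖ * W.w n (q.1.1 * q.1.2) := by
      intro u
      have h5 : ∀ q : ((fun q : S × S => q.1 * q.2) ⁻¹' {u} : Set (S × S)),
          ‖a.c q.1.1‖ * ‖b.c q.1.2‖ * W.w n (q.1.1 * q.1.2) =
            ‖a.c q.1.1 * b.c q.1.2‖ * W.w n u := by
        intro q
        have hq : q.1.1 * q.1.2 = u := q.2
        rw [hq, norm_mul]
      rw [tsum_congr h5, tsum_mul_right]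
      exact mul_le_mul_of_nonneg_right (norm_tsum_le_tsum_norm (fiber_summable a b u))
        (W.pos n u).le
    have h6 : Summable fun u => ‖mulc a b u‖ * W.w n u :=
      Summable.of_nonneg_of_le (fun u => mul_nonneg (norm_nonneg _) (W.pos n u).le) h4 h3.summable
    refine ⟨h6, ?_⟩
    calc ∑' u, ‖mulc a b u‖ * W.w n u
        ≤ ∑' u, ∑' q : ((fun q : S × S => q.1 * q.2) ⁻¹' {u} : Set (S × S)),
          ‖a.c q.1.1‖ * ‖b.c q.1.2‖ * W.w n (q.1.1 * q.1.2) :=
          Summable.tsum_le_tsum h4 h6 h3.summable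
      _ = ∑' q : S × S, ‖a.c q.1‖ * ‖b.c q.2‖ * W.w n (q.1 * q.2) := h3.tsum_eq
      _ ≤ ∑' q : S × S, C * ((‖a.c q.1‖ * W.w n q.1) * (‖b.c q.2‖ * W.w m q.2)) :=
          Summable.tsum_le_tsum hle h2 (h1.mul_left C)
      _ = C * (N W n a * N W m b) := by
          rw [tsum_mul_left, N_apply, N_apply,
            Summable.tsum_mul_tsum (a.summable n) (b.summable m) h1]
  obtain ⟨m, C, h'⟩ := W.submul n
  exact ⟨(key m C h').1, fun m C h' => (key m C h').2⟩

noncomputable instance : Mul (L1 W) := ⟨fun a b => ⟨mulc a b, fun n => (mulc_norm_summable a b n).1⟩⟩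

theorem c_mul (a b : L1 W) (u : S) : (a * b).c u = mulc a b u := rfl

theorem N_mul {n m : ℕ} {C : ℝ} (h : ∀ s t, W.w n (s * t) ≤ C * (W.w n s * W.w m t))
    (a b : L1 W) : N W n (a * b) ≤ C * (N W n a * N W m b) :=
  (mulc_norm_summable a b n).2 m C h

theorem T_mul (a b : L1 W) {g : S → ℂ} (hg : Gr W g) :
    T (a * b) g = T a fun s => T b fun t => g (s * t) := by
  have h1 := prod_summable a b hg
  have h2 := h1.of_norm.hasSum.tsum_fiberwise (fun q : S × S => q.1 * q.2)
  have h3 : T (a * b) g = ∑' q : S × S, a.c q.1 * b.c q.2 * g (q.1 * q.2) := by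
    rw [← h2.tsum_eq]
    refine tsum_congr fun u => ?_
    rw [c_mul, mulc, ← tsum_mul_right]
    refine tsum_congr fun q => ?_
    have hq : q.1.1 * q.1.2 = u := q.2
    rw [hq]
  rw [h3, h1.of_norm.tsum_prod' (fun s => ?_)]
  · unfold T
    refine tsum_congr fun s => ?_
    rw [← tsum_mul_left]
    exact tsum_congr fun t => by ring
  · refine ((T_summable b (hg.left s)).mul_left (a.c s)).congr fun t => ?_
    ring

theorem T_ext {a b : L1 W} (h : ∀ g, Gr W g → T a g = T b g) : a = b :=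
  ext' fun s => by rw [← T_dl, ← T_dl, h _ (gr_dl s)]

/-- the basis vector `e_t` -/
noncomputable def e (W : Weights S) (t : S) : L1 W :=
  ⟨Set.indicator {t} fun _ => 1, fun n => by
    refine summable_of_ne_finset_zero (s := {t}) fun s hs => ?_
    rw [Finset.mem_singleton] at hs
    rw [Set.indicator_of_notMem (by simpa using hs), norm_zero, zero_mul]⟩

theorem c_e_self (t : S) : (e W t).c t = 1 := by
  change Set.indicator {t} (fun _ => (1 : ℂ)) t = 1
  simp

theorem c_e_ne {t s : S} (h : s ≠ t) : (e W t).c s = 0 := by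
  change Set.indicator {t} (fun _ => (1 : ℂ)) s = 0
  rw [Set.indicator_of_notMem (by simpa using h)]

theorem T_e (t : S) (g : S → ℂ) : T (e W t) g = g t := by
  unfold T
  rw [tsum_eq_single t]
  · rw [c_e_self, one_mul]
  · intro s hs
    rw [c_e_ne hs, zero_mul]

theorem N_e (n : ℕ) (t : S) : N W n (e W t) = W.w n t := by
  rw [N_apply, tsum_eq_single t]
  · rw [c_e_self, norm_one, one_mul]
  · intro s hs
    rw [c_e_ne hs, norm_zero, zero_mul]

noncomputable instance : One (L1 W) := ⟨e W 1⟩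

theorem one_def : (1 : L1 W) = e W 1 := rfl

noncomputable instance : Ring (L1 W) :=
  { (inferInstance : AddCommGroup (L1 W)) with
    mul := (· * ·)
    one := 1
    left_distrib := fun a b c => T_ext fun g hg => by
      rw [T_mul a (b + c) hg, T_add _ _ hg, T_mul a b hg, T_mul a c hg,
        ← T_add_right a (hg.T b) (hg.T c)]
      congr 1
      funext s
      exact T_add b c (hg.left s)
    right_distrib := fun a b c => T_ext fun g hg => by
      rw [T_mul (a + b) c hg, T_add _ _ (hg.T c), T_add _ _ hg, T_mul a c hg, T_mul b c hg]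
    zero_mul := fun a => T_ext fun g hg => by
      rw [T_mul _ _ hg, T_zero_left, T_zero_left]
    mul_zero := fun a => T_ext fun g hg => by
      rw [T_mul _ _ hg, T_zero_left]
      have : (fun s => T (0 : L1 W) fun t => g (s * t)) = fun _ => 0 := by
        funext s
        exact T_zero_left _
      rw [this, T_zero]
    mul_assoc := fun a b c => T_ext fun g hg => by
      rw [T_mul (a * b) c hg, T_mul a b (hg.T c), T_mul a (b * c) hg]
      congr 1
      funext s
      rw [T_mul b c (hg.left s)]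
      congr 1
      funext t
      congr 1
      funext r
      rw [mul_assoc]
    one_mul := fun a => T_ext fun g hg => by
      rw [T_mul _ _ hg, one_def, T_e]
      congr 1
      funext t
      rw [one_mul]
    mul_one := fun a => T_ext fun g hg => by
      rw [T_mul _ _ hg, one_def]
      congr 1
      funext s
      rw [T_e, mul_one]
    neg_add_cancel := neg_add_cancel
    sub_eq_add_neg := sub_eq_add_neg }

theorem smul_mul' (z : ℂ) (a b : L1 W) : (z • a) * b = z • (a * b) :=
  T_ext fun g hg => by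
    rw [T_mul _ _ hg, T_smul, T_smul, T_mul _ _ hg]

theorem mul_smul' (z : ℂ) (a b : L1 W) : a * (z • b) = z • (a * b) :=
  T_ext fun g hg => by
    rw [T_mul _ _ hg, T_smul, T_mul _ _ hg, ← T_mul_right]
    congr 1
    funext s
    rw [T_smul]

end L1

end Pool.Agent.helper52.FM
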