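import Pool.Agent.helper52.FM.L1
import Pool.Agent.helper52.FM.Bil

set_option autoImplicit false

/-!
# The weighted convolution algebra is a Fréchet algebra
-/

namespace Pool.Agent.helper52.FM

open Filter Topology

variable {S : Type} [Monoid S] {W : Weights S}

namespace L1

theorem Wmono {W : Weights S} {i j : ℕ} (h : i ≤ j) (s : S) : W.w i s ≤ W.w j s :=
  monotone_nat_of_le_succ (f := fun n => W.w n s) (fun n => W.mono n s) h

theorem complete (u : ℕ → L1 W)
    (hu : ∀ k, ∀ ε > 0, ∃ N, ∀ i ≥ N, ∀ j ≥ N, L1.N W k (u i - u j) < ε) :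
    ∃ x, Tendsto u atTop (𝓝 x) := by
  have hc : ∀ t, ∃ z : ℂ, Tendsto (fun i => (u i).c t) atTop (𝓝 z) := by
    intro t
    apply cauchySeq_tendsto_of_complete
    rw [Metric.cauchySeq_iff]
    intro ε hε
    obtain ⟨N, hN⟩ := hu 0 (ε * W.w 0 t) (mul_pos hε (W.pos 0 t))
    refine ⟨N, fun i hi j hj => ?_⟩
    rw [dist_eq_norm, ← c_sub]
    have h1 := norm_c_mul_le 0 (u i - u j) t
    have h2 := hN i hi j hj
    have h3 := W.pos 0 t
    nlinarith
  choose z hz using hc
  have key : ∀ k, ∀ ε > 0, ∃ N, ∀ i ≥ N, ∀ F : Finset S,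
      ∑ t ∈ F, ‖(u i).c t - z t‖ * W.w k t ≤ ε := by
    intro k ε hε
    obtain ⟨N, hN⟩ := hu k ε hε
    refine ⟨N, fun i hi F => ?_⟩
    have h1 : Tendsto (fun j => ∑ t ∈ F, ‖(u i).c t - (u j).c t‖ * W.w k t) atTop
        (𝓝 (∑ t ∈ F, ‖(u i).c t - z t‖ * W.w k t)) :=
      tendsto_finsetSum _ fun t _ => ((tendsto_const_nhds.sub (hz t)).norm).mul_const _
    refine le_of_tendsto h1 ?_
    filter_upwards [eventually_ge_atTop N] with j hj
    have h2 : ∑ t ∈ F, ‖(u i).c t - (u j).c t‖ * W.w k t ≤ L1.N W k (u i - u j) :=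
      (((u i - u j).summable k).sum_le_tsum F
        fun t _ => mul_nonneg (norm_nonneg _) (W.pos k t).le)
    exact h2.trans (hN i hi j hj).le
  have hsum : ∀ k, ∃ N, ∀ i ≥ N, Summable fun t => ‖(u i).c t - z t‖ * W.w k t := by
    intro k
    obtain ⟨N, hN⟩ := key k 1 one_pos
    exact ⟨N, fun i hi => summable_of_sum_le
      (fun t => mul_nonneg (norm_nonneg _) (W.pos k t).le) (hN i hi)⟩
  have hzm : ∀ k, Summable fun t => ‖z t‖ * W.w k t := by
    intro k
    obtain ⟨N, hN⟩ := hsum k
    refine Summable.of_nonneg_of_le (fun t => mul_nonneg (norm_nonneg _) (W.pos k t).le)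
      (fun t => ?_) (((u N).summable k).add (hN N le_rfl))
    rw [← add_mul]
    refine mul_le_mul_of_nonneg_right ?_ (W.pos k t).le
    have : z t = (u N).c t - ((u N).c t - z t) := by ring
    calc ‖z t‖ = ‖(u N).c t - ((u N).c t - z t)‖ := by rw [← this]
      _ ≤ _ := norm_sub_le _ _
  refine ⟨⟨z, hzm⟩, ?_⟩
  rw [(withSeminorms W).tendsto_nhds]
  intro k ε hε
  obtain ⟨N, hN⟩ := key k (ε / 2) (half_pos hε)
  filter_upwards [eventually_ge_atTop N] with i hi
  have h1 : Summable fun t => ‖(u i).c t - z t‖ * W.w k t := summable_of_sum_le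
      (fun t => mul_nonneg (norm_nonneg _) (W.pos k t).le) (hN i hi)
  have h2 : ∑' t, ‖(u i).c t - z t‖ * W.w k t ≤ ε / 2 := h1.tsum_le_of_sum_le (hN i hi)
  have h3 : L1.N W k (u i - ⟨z, hzm⟩) = ∑' t, ‖(u i).c t - z t‖ * W.w k t := rfl
  change L1.N W k (u i - ⟨z, hzm⟩) < ε
  rw [h3]
  linarith

instance frechet (W : Weights S) : Frechet (L1 W) := by
  refine ⟨⟨N W, N_mono, withSeminorms W, fun a ha => ?_, complete⟩⟩
  refine ext' fun s => ?_
  have h1 := norm_c_le 0 a s
  rw [ha 0, zero_div] at h1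
  exact norm_le_zero_iff.1 h1

/-- multiplication as a bilinear map -/
noncomputable def mulL (W : Weights S) : L1 W →ₗ[ℂ] L1 W →ₗ[ℂ] L1 W :=
  LinearMap.mk₂ ℂ (fun a b => a * b) add_mul (fun z a b => smul_mul' z a b) mul_add
    (fun z a b => mul_smul' z a b)

theorem isFrechetAlgebra (W : Weights S) : IsFrechetAlgebra (L1 W) where
  frechet := frechet W
  smul_mul := smul_mul'
  mul_smul := mul_smul'
  cont := by
    refine bilin_continuous (withSeminorms W) (withSeminorms W) (withSeminorms W) (mulL W) ?_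
    intro n
    obtain ⟨m, C, h⟩ := W.submul n
    have hC : 0 ≤ C := by
      have := h 1 1
      have h1 := W.pos n (1 * 1)
      have h2 := mul_pos (W.pos n 1) (W.pos m 1)
      by_contra hcon
      push Not at hcon
      nlinarith
    exact ⟨n, m, C, hC, fun a b => N_mul h a b⟩

/-- coefficients of a right multiple by a basis vector -/
theorem c_mul_e [IsRightCancelMul S] (a : L1 W) (s t : S) : (a * e W t).c (s * t) = a.c s := by
  rw [← T_dl, T_mul _ _ (gr_dl _)]
  have : (fun r => T (e W t) fun t' => dl (s * t) (r * t')) = dl s := by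
    funext r
    rw [T_e]
    unfold dl
    by_cases h : r = s
    · subst h
      simp
    · rw [Set.indicator_of_notMem, Set.indicator_of_notMem]
      · simpa using h
      · intro hcon
        exact h (mul_right_cancel hcon)
  rw [this, T_dl]

/-- the restriction to a finite set -/
noncomputable def cut (a : L1 W) (G : Finset S) : L1 W := ∑ s ∈ G, a.c s • e W s

theorem c_sum {ι : Type*} (G : Finset ι) (f : ι → L1 W) (s : S) :
    (∑ i ∈ G, f i).c s = ∑ i ∈ G, (f i).c s := by
  classical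
  induction G using Finset.induction_on with
  | empty => rfl
  | insert i G hi ih => rw [Finset.sum_insert hi, Finset.sum_insert hi, c_add, ih]

theorem c_cut (a : L1 W) (G : Finset S) (s : S) [Decidable (s ∈ G)] :
    (a.cut G).c s = if s ∈ G then a.c s else 0 := by
  rw [cut, c_sum]
  split_ifs with h
  · rw [Finset.sum_eq_single s]
    · rw [c_smul, c_e_self, mul_one]
    · intro t _ ht
      rw [c_smul, c_e_ne (Ne.symm ht), mul_zero]
    · exact fun h' => absurd h h'
  · apply Finset.sum_eq_zero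
    intro t ht
    rw [c_smul, c_e_ne (t := t) (s := s) (fun hst : s = t => h (by rw [hst]; exact ht)), mul_zero]

theorem N_sub_cut (a : L1 W) (G : Finset S) {n m : ℕ} {ε : ℝ} (hε : 0 ≤ ε)
    (h : ∀ s ∉ G, W.w n s ≤ ε * W.w m s) : N W n (a - a.cut G) ≤ ε * N W m a := by
  classical
  rw [N_apply, N_apply, ← tsum_mul_left]
  refine Summable.tsum_le_tsum (fun s => ?_) ((a - a.cut G).summable n) ((a.summable m).mul_left ε)
  rw [c_sub, c_cut]
  split_ifs with hs
  · rw [sub_self, norm_zero, zero_mul]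
    exact mul_nonneg hε (mul_nonneg (norm_nonneg _) (W.pos m s).le)
  · rw [sub_zero]
    calc ‖a.c s‖ * W.w n s ≤ ‖a.c s‖ * (ε * W.w m s) :=
          mul_le_mul_of_nonneg_left (h s hs) (norm_nonneg _)
      _ = ε * (‖a.c s‖ * W.w m s) := by ring

end L1

end Pool.Agent.helper52.FM
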