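import Pool.Agent.helper52.FM.Core

set_option autoImplicit false

/-!
# No injective modules over weighted convolution algebras
-/

namespace Pool.Agent.helper52.FM

open Filter Topology

universe u v

theorem lin_continuous {X : Type u} [AddCommGroup X] [Module ℂ X] [TopologicalSpace X]
    {Y : Type v} [AddCommGroup Y] [Module ℂ Y] [TopologicalSpace Y]
    {p : SeminormFamily ℂ X ℕ} (hp : WithSeminorms p) {q : SeminormFamily ℂ Y ℕ}
    (hq : WithSeminorms q) (f : X →ₗ[ℂ] Y)
    (h : ∀ n, ∃ k, ∃ C : ℝ, 0 ≤ C ∧ ∀ x, q n (f x) ≤ C * p k x) : Continuous f := by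
  refine WithSeminorms.continuous_of_isBounded hp hq f fun n => ?_
  obtain ⟨k, C, hC, hk⟩ := h n
  refine ⟨{k}, ⟨C, hC⟩, fun x => ?_⟩
  rw [Finset.sup_singleton]
  exact hk x

theorem lin_bound {X : Type u} [AddCommGroup X] [Module ℂ X] [TopologicalSpace X]
    {p : SeminormFamily ℂ X ℕ} (hp : WithSeminorms p) (hm : Monotone p) (r : Seminorm ℂ X)
    (hr : Continuous r) : ∃ k, ∃ C : ℝ, 0 ≤ C ∧ ∀ x, r x ≤ C * p k x := by
  obtain ⟨s, C, -, h⟩ := Seminorm.bound_of_continuous hp r hr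
  refine ⟨s.sup id, C, C.2, fun x => (h x).trans ?_⟩
  have h1 : s.sup p ≤ p (s.sup id) := Finset.sup_le fun i hi => hm (Finset.le_sup (f := id) hi)
  exact mul_le_mul_of_nonneg_left (h1 x) C.2

variable {S : Type} [Monoid S]

/-- quotients of the weights tend to zero at infinity -/
def Weights.Schwartz (W : Weights S) : Prop :=
  ∀ n, ∃ m, Tendsto (fun s => W.w n s / W.w m s) cofinite (𝓝 0)

/-- left multiplication by a fixed element does not make the weights much smaller -/
def Weights.Div (W : Weights S) : Prop :=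
  ∀ n, ∃ m, ∀ s, ∃ C : ℝ, ∀ t, W.w n t ≤ C * W.w m (s * t)

set_option linter.unusedSectionVars false

variable {W : Weights S} {X : Type u} [AddCommGroup X] [Module ℂ X] [TopologicalSpace X]

/-- rank one maps -/
noncomputable def rk1 (p : ℕ → Seminorm ℂ X) (β : ℕ → ℕ) (s : S) (y : X) : CoT p β W :=
  ⟨{ toFun := fun a => a.c s • y
     map_add' := fun a b => by rw [L1.c_add, add_smul]
     map_smul' := fun z a => by rw [L1.c_smul, mul_smul, RingHom.id_apply] }, by
    intro n
    have h1 : 0 ≤ p n y := apply_nonneg _ _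
    refine ⟨p n y / W.w (β n) s, div_nonneg h1 (W.pos _ _).le, fun a => ?_⟩
    change p n (a.c s • y) ≤ _
    rw [map_smul_eq_mul]
    calc ‖a.c s‖ * p n y ≤ (L1.N W (β n) a / W.w (β n) s) * p n y :=
          mul_le_mul_of_nonneg_right (L1.norm_c_le (β n) a s) h1
      _ = p n y / W.w (β n) s * L1.N W (β n) a := by ring⟩

theorem rk1_f (p : ℕ → Seminorm ℂ X) (β : ℕ → ℕ) (s : S) (y : X) (a : L1 W) :
    (rk1 (W := W) p β s y).f a = a.c s • y := rfl

theorem rk1_P (p : ℕ → Seminorm ℂ X) (β : ℕ → ℕ) (s : S) (y : X) (n : ℕ) :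
    CoT.P p β W n (rk1 p β s y) ≤ p n y / W.w (β n) s := by
  have h1 : 0 ≤ p n y := apply_nonneg _ _
  refine CoT.P_le p β n _ (div_nonneg h1 (W.pos _ _).le) fun a => ?_
  rw [rk1_f, map_smul_eq_mul]
  calc ‖a.c s‖ * p n y ≤ (L1.N W (β n) a / W.w (β n) s) * p n y :=
        mul_le_mul_of_nonneg_right (L1.norm_c_le (β n) a s) h1
    _ = p n y / W.w (β n) s * L1.N W (β n) a := by ring

theorem CoT.sum_f {p : ℕ → Seminorm ℂ X} {β : ℕ → ℕ} {ι : Type*} (G : Finset ι)
    (f : ι → CoT p β W) (a : L1 W) : (∑ i ∈ G, f i).f a = ∑ i ∈ G, (f i).f a := by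
  classical
  induction G using Finset.induction_on with
  | empty => rfl
  | insert i G hi ih => rw [Finset.sum_insert hi, Finset.sum_insert hi, CoT.add_f, ih]

theorem no_injective [Infinite S] [IsRightCancelMul S] (hS : W.Schwartz) (hD : W.Div)
    [hX : Frechet X] (M : FModule (L1 W) X) (hU : M.Unital) (hI : M.InjectiveUnital) (x : X) :
    x = 0 := by
  obtain ⟨p, pm, hp, hs, hc⟩ := hX.out
  have hbd : ∀ n, ∃ m k, ∃ C : ℝ, 0 ≤ C ∧ ∀ a x, p n (M.act a x) ≤ C * (L1.N W m a * p k x) :=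
    fun n => bilin_bound (L1.withSeminorms W) L1.N_mono hp pm M.act M.cont (p n)
      (hp.continuous_seminorm n)
  choose α κ C hC0 hC using hbd
  apply hs
  intro j
  obtain ⟨m0, hm0⟩ := hS (α j)
  obtain ⟨β0, hβ0⟩ := hD m0
  choose γ hγ using fun n => hS (α n)
  set β : ℕ → ℕ := fun n => max β0 (max (α n) (γ n)) with hβ
  have hβα : ∀ n, α n ≤ β n := fun n => (le_max_left _ _).trans (le_max_right _ _)
  have hβγ : ∀ n, γ n ≤ β n := fun n => (le_max_right _ _).trans (le_max_right _ _)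
  have hββ : ∀ n, β0 ≤ β n := fun n => le_max_left _ _
  have hβt : ∀ n, Tendsto (fun s => W.w (α n) s / W.w (β n) s) cofinite (𝓝 0) := by
    intro n
    refine squeeze_zero (fun s => div_nonneg (W.pos _ _).le (W.pos _ _).le) (fun s => ?_) (hγ n)
    exact div_le_div_of_nonneg_left (W.pos _ _).le (W.pos _ _) (L1.Wmono (hβγ n) s)
  -- the embedding
  have hιb : ∀ n (x : X) (a : L1 W), p n (M.act a x) ≤ C n * p (κ n) x * L1.N W (β n) a := by
    intro n x a
    have h1 : L1.N W (α n) a ≤ L1.N W (β n) a := L1.N_mono (hβα n) a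
    have h2 : 0 ≤ p (κ n) x := apply_nonneg _ _
    calc p n (M.act a x) ≤ C n * (L1.N W (α n) a * p (κ n) x) := hC n a x
      _ ≤ C n * (L1.N W (β n) a * p (κ n) x) :=
        mul_le_mul_of_nonneg_left (mul_le_mul_of_nonneg_right h1 h2) (hC0 n)
      _ = C n * p (κ n) x * L1.N W (β n) a := by ring
  let ι : X →ₗ[ℂ] CoT p β W :=
    { toFun := fun x => ⟨M.act.flip x, fun n =>
        ⟨C n * p (κ n) x, mul_nonneg (hC0 n) (apply_nonneg _ _), hιb n x⟩⟩
      map_add' := fun x y => CoT.ext fun a => by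
        change M.act a (x + y) = M.act a x + M.act a y
        rw [map_add]
      map_smul' := fun z x => CoT.ext fun a => by
        change M.act a (z • x) = z • M.act a x
        rw [map_smul] }
  have hιf : ∀ x a, (ι x).f a = M.act a x := fun _ _ => rfl
  have hιP : ∀ n x, CoT.P p β W n (ι x) ≤ C n * p (κ n) x := fun n x =>
    CoT.P_le p β n _ (mul_nonneg (hC0 n) (apply_nonneg _ _)) (hιb n x)
  have hιc : Continuous ι := by
    refine lin_continuous hp (CoT.withSeminorms p β W) ι fun n => ?_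
    refine ⟨(Finset.Iic n).sup κ, ∑ i ∈ Finset.Iic n, C i, Finset.sum_nonneg fun i _ => hC0 i,
      fun x => ?_⟩
    have h0 : 0 ≤ ∑ i ∈ Finset.Iic n, C i := Finset.sum_nonneg fun i _ => hC0 i
    refine CoT.Q_le p β _ (mul_nonneg h0 (apply_nonneg _ _)) fun i hi => ?_
    refine (hιP i x).trans ?_
    exact mul_le_mul (Finset.single_le_sum (fun i _ => hC0 i) (Finset.mem_Iic.2 hi))
      (pm (Finset.le_sup (Finset.mem_Iic.2 hi)) x) (apply_nonneg _ _) h0
  -- the left inverse
  let ρ : CoT p β W →ₗ[ℂ] X :=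
    { toFun := fun φ => φ.f 1
      map_add' := fun φ χ => CoT.add_f φ χ 1
      map_smul' := fun z φ => CoT.smul_f z φ 1 }
  have hρc : Continuous ρ := by
    refine lin_continuous (CoT.withSeminorms p β W) hp ρ fun n => ?_
    refine ⟨n, L1.N W (β n) 1, apply_nonneg _ _, fun φ => ?_⟩
    calc p n (φ.f 1) ≤ CoT.P p β W n φ * L1.N W (β n) 1 := CoT.le_P p β n φ 1
      _ ≤ CoT.Q p β W n φ * L1.N W (β n) 1 :=
        mul_le_mul_of_nonneg_right (CoT.P_le_Q p β le_rfl φ) (apply_nonneg _ _)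
      _ = L1.N W (β n) 1 * CoT.Q p β W n φ := mul_comm _ _
  have hF : Frechet (CoT p β W) := CoT.frechet hp hs hc
  obtain ⟨ψ, hψ1, hψ2⟩ := hI (CoT p β W) CoT.mod ⟨ι, hιc⟩ CoT.mod_unital
    (fun b x => CoT.ext fun a => (by
      change M.act a (M.act b x) = M.act (a * b) x
      rw [M.act_mul]))
    ⟨⟨ρ, hρc⟩, fun x => hU x⟩
  have hbψ : ∀ i, ∃ m, ∃ D : ℝ, 0 ≤ D ∧ ∀ φ, p i (ψ φ) ≤ D * CoT.Q p β W m φ := by
    intro i
    exact lin_bound (CoT.withSeminorms p β W) (CoT.Q_mono p β W)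
      ((p i).comp (ψ : CoT p β W →ₗ[ℂ] X)) ((hp.continuous_seminorm i).comp ψ.continuous)
  obtain ⟨m, D, hD0, hDψ⟩ := hbψ j
  obtain ⟨m', D', hD0', hDψ'⟩ := hbψ (κ j)
  -- rank one maps are killed
  have kill : ∀ s y, p j (ψ (rk1 p β s y)) = 0 := by
    intro s y
    obtain ⟨Cs, hCs⟩ := hβ0 s
    have hCs0 : 0 ≤ Cs := by
      have h1 := hCs 1
      have h2 := W.pos m0 1
      have h3 := W.pos β0 (s * 1)
      by_contra hcon
      push Not at hcon
      nlinarith
    have hpy : 0 ≤ p m' y := apply_nonneg _ _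
    have hb : ∀ t, p j (ψ (rk1 p β s y)) ≤
        C j * D' * p m' y * Cs * (W.w (α j) t / W.w m0 t) := by
      intro t
      have e1 : rk1 p β s y = CoT.act (L1.e W t) (rk1 p β (s * t) y) := CoT.ext fun a => by
        rw [CoT.act_f, rk1_f, rk1_f, L1.c_mul_e]
      have e2 : ψ (rk1 p β s y) = M.act (L1.e W t) (ψ (rk1 p β (s * t) y)) := by
        rw [← hψ1, e1]
        rfl
      have h1 : CoT.Q p β W m' (rk1 p β (s * t) y) ≤ p m' y * (Cs / W.w m0 t) := by
        refine CoT.Q_le p β _ (mul_nonneg hpy (div_nonneg hCs0 (W.pos _ _).le)) fun i hi => ?_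
        refine (rk1_P p β (s * t) y i).trans ?_
        rw [div_eq_mul_inv]
        refine mul_le_mul (pm hi y) ?_ (inv_nonneg.2 (W.pos _ _).le) hpy
        rw [inv_le_comm₀ (W.pos _ _) (by
          refine div_pos ?_ (W.pos _ _)
          have h2 := W.pos m0 t
          have h3 := W.pos β0 (s * t)
          have h4 := hCs t
          by_contra hcon
          push Not at hcon
          nlinarith), inv_div]
        refine (div_le_of_le_mul₀ hCs0 (W.pos _ _).le ?_).trans (L1.Wmono (hββ i) (s * t))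
        rw [mul_comm]
        exact hCs t
      calc p j (ψ (rk1 p β s y)) = p j (M.act (L1.e W t) (ψ (rk1 p β (s * t) y))) := by rw [e2]
        _ ≤ C j * (L1.N W (α j) (L1.e W t) * p (κ j) (ψ (rk1 p β (s * t) y))) := hC j _ _
        _ ≤ C j * (W.w (α j) t * (D' * (p m' y * (Cs / W.w m0 t)))) := by
            rw [L1.N_e]
            refine mul_le_mul_of_nonneg_left (mul_le_mul_of_nonneg_left ?_ (W.pos _ _).le) (hC0 j)
            exact (hDψ' _).trans (mul_le_mul_of_nonneg_left h1 hD0')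
        _ = C j * D' * p m' y * Cs * (W.w (α j) t / W.w m0 t) := by ring
    refine le_antisymm ?_ (apply_nonneg _ _)
    have ht : Tendsto (fun t => C j * D' * p m' y * Cs * (W.w (α j) t / W.w m0 t)) cofinite
        (𝓝 0) := by
      simpa using hm0.const_mul (C j * D' * p m' y * Cs)
    exact ge_of_tendsto ht (Eventually.of_forall hb)
  -- approximation
  set K : ℝ := ∑ i ∈ Finset.Iic m, C i * p (κ i) x with hK
  have hK0 : 0 ≤ K := Finset.sum_nonneg fun i _ => mul_nonneg (hC0 i) (apply_nonneg _ _)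
  have happ : ∀ ε > 0, p j x ≤ D * K * ε := by
    intro ε hε
    have hev : ∀ᶠ s in cofinite, ∀ i ∈ Finset.Iic m, W.w (α i) s / W.w (β i) s < ε :=
      (Finset.eventually_all _).2 fun i _ => (hβt i).eventually (gt_mem_nhds hε)
    have hfin : {s | ¬ ∀ i ∈ Finset.Iic m, W.w (α i) s / W.w (β i) s < ε}.Finite := hev
    set G : Finset S := hfin.toFinset with hG
    have hGn : ∀ s ∉ G, ∀ i ≤ m, W.w (α i) s ≤ ε * W.w (β i) s := by
      intro s hs i hi
      rw [hG, Set.Finite.mem_toFinset] at hs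
      have hs' : ∀ i ∈ Finset.Iic m, W.w (α i) s / W.w (β i) s < ε := by
        by_contra hcon
        exact hs hcon
      have h1 := hs' i (Finset.mem_Iic.2 hi)
      rw [div_lt_iff₀ (W.pos _ _)] at h1
      exact h1.le
    set Φ : CoT p β W := ι x - ∑ s ∈ G, rk1 p β s (M.act (L1.e W s) x) with hΦ
    have hΦf : ∀ a, Φ.f a = M.act (a - a.cut G) x := by
      intro a
      rw [hΦ, CoT.sub_f, CoT.sum_f, hιf, L1.cut, map_sub, LinearMap.sub_apply, map_sum,
        LinearMap.sum_apply]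
      congr 1
      refine Finset.sum_congr rfl fun s _ => ?_
      rw [rk1_f, map_smul, LinearMap.smul_apply]
    have hΦQ : CoT.Q p β W m Φ ≤ K * ε := by
      refine CoT.Q_le p β _ (mul_nonneg hK0 hε.le) fun i hi => ?_
      refine CoT.P_le p β i _ (mul_nonneg hK0 hε.le) fun a => ?_
      have hpx : 0 ≤ p (κ i) x := apply_nonneg _ _
      have hNa : 0 ≤ L1.N W (β i) a := apply_nonneg _ _
      rw [hΦf]
      calc p i (M.act (a - a.cut G) x)
          ≤ C i * (L1.N W (α i) (a - a.cut G) * p (κ i) x) := hC i _ _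
        _ ≤ C i * (ε * L1.N W (β i) a * p (κ i) x) :=
            mul_le_mul_of_nonneg_left (mul_le_mul_of_nonneg_right
              (L1.N_sub_cut a G hε.le fun s hs => hGn s hs i hi) hpx) (hC0 i)
        _ = (C i * p (κ i) x) * (ε * L1.N W (β i) a) := by ring
        _ ≤ K * (ε * L1.N W (β i) a) := by
            refine mul_le_mul_of_nonneg_right ?_ (mul_nonneg hε.le hNa)
            exact Finset.single_le_sum (f := fun i => C i * p (κ i) x)
              (fun i _ => mul_nonneg (hC0 i) (apply_nonneg _ _)) (Finset.mem_Iic.2 hi)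
        _ = K * ε * L1.N W (β i) a := by ring
    have e1 : ι x = Φ + ∑ s ∈ G, rk1 p β s (M.act (L1.e W s) x) := by
      rw [hΦ]
      abel
    have e2 : x = ψ Φ + ∑ s ∈ G, ψ (rk1 p β s (M.act (L1.e W s) x)) := by
      rw [← map_sum, ← map_add, ← e1]
      exact (hψ2 x).symm
    have h3 : p j (∑ s ∈ G, ψ (rk1 p β s (M.act (L1.e W s) x))) ≤ 0 := by
      refine Finset.sum_induction _ (fun y => p j y ≤ 0) (fun a b ha hb => ?_) ?_
        fun s _ => (kill s _).le
      · exact (map_add_le_add (p j) a b).trans (by linarith)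
      · rw [map_zero]
    calc p j x ≤ p j (ψ Φ) + p j (∑ s ∈ G, ψ (rk1 p β s (M.act (L1.e W s) x))) := by
          conv_lhs => rw [e2]
          exact map_add_le_add (p j) _ _
      _ ≤ D * CoT.Q p β W m Φ + 0 := add_le_add (hDψ Φ) h3
      _ ≤ D * (K * ε) + 0 := by
          have := mul_le_mul_of_nonneg_left hΦQ hD0
          linarith
      _ = D * K * ε := by ring
  refine le_antisymm ?_ (apply_nonneg _ _)
  have ht : Tendsto (fun ε : ℝ => D * K * ε) (𝓝[>] 0) (𝓝 0) := by
    have hc : Continuous (fun ε : ℝ => D * K * ε) := by fun_prop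
    have := (hc.tendsto 0).mono_left (nhdsWithin_le_nhds (s := Set.Ioi 0))
    simpa using this
  exact ge_of_tendsto ht (eventually_nhdsWithin_of_forall fun ε hε => happ ε hε)

end Pool.Agent.helper52.FM
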